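import Pool.Agent.Work.MP_64ea0f_cs.InterfaceA

set_option autoImplicit false
set_option linter.unusedSectionVars false

/-! # Block BAS (helper91): the form, the reflections. All lemmas in `Pool.CS.H91`. -/

namespace Pool.CS.H91

variable {D : Rd}

/-! ## the form -/

theorem B_symm (v w : D.V) : D.B v w = D.B w v := by
  unfold Rd.B bform
  rw [Finset.sum_comm]
  refine Finset.sum_congr rfl fun s _ => Finset.sum_congr rfl fun t _ => ?_
  rw [D.symm t s]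
  ring

theorem B_lin (a b : ℝ) (v v' w : D.V) :
    D.B (a • v + b • v') w = a * D.B v w + b * D.B v' w := by
  unfold Rd.B bform
  rw [Finset.mul_sum, Finset.mul_sum, ← Finset.sum_add_distrib]
  refine Finset.sum_congr rfl fun s _ => ?_
  rw [Finset.mul_sum, Finset.mul_sum, ← Finset.sum_add_distrib]
  refine Finset.sum_congr rfl fun t _ => ?_
  simp only [Pi.add_apply, Pi.smul_apply, smul_eq_mul]
  ring

theorem B_add_left (v w u : D.V) : D.B (v + w) u = D.B v u + D.B w u := by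
  have := B_lin 1 1 v w u
  rwa [one_smul, one_smul, one_mul, one_mul] at this

theorem B_smul_left (a : ℝ) (v w : D.V) : D.B (a • v) w = a * D.B v w := by
  have := B_lin a 0 v 0 w
  rwa [zero_smul, add_zero, zero_mul, add_zero] at this

/-- the form as a linear map in the first variable -/
noncomputable def Bl (w : D.V) : D.V →ₗ[ℝ] ℝ where
  toFun v := D.B v w
  map_add' v v' := B_add_left v v' w
  map_smul' a v := B_smul_left a v w

theorem Bl_apply (v w : D.V) : Bl w v = D.B v w := rfl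

theorem B_zero_left (w : D.V) : D.B 0 w = 0 := (Bl w).map_zero

theorem B_neg_left (v w : D.V) : D.B (-v) w = -D.B v w := (Bl w).map_neg v

theorem B_sub_left (v v' w : D.V) : D.B (v - v') w = D.B v w - D.B v' w := (Bl w).map_sub v v'

theorem B_sum_left {ι : Type*} (I : Finset ι) (f : ι → D.V) (w : D.V) :
    D.B (∑ i ∈ I, f i) w = ∑ i ∈ I, D.B (f i) w := map_sum (Bl w) f I

theorem B_add_right (v w u : D.V) : D.B u (v + w) = D.B u v + D.B u w := by
  rw [B_symm, B_add_left, B_symm v, B_symm w]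

theorem B_smul_right (a : ℝ) (v w : D.V) : D.B v (a • w) = a * D.B v w := by
  rw [B_symm, B_smul_left, B_symm w]

theorem B_zero_right (w : D.V) : D.B w 0 = 0 := by rw [B_symm, B_zero_left]

theorem B_neg_right (v w : D.V) : D.B v (-w) = -D.B v w := by
  rw [B_symm, B_neg_left, B_symm w]

theorem B_sub_right (v v' w : D.V) : D.B w (v - v') = D.B w v - D.B w v' := by
  rw [B_symm, B_sub_left, B_symm v, B_symm v']

theorem B_sum_right {ι : Type*} (I : Finset ι) (f : ι → D.V) (w : D.V) :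
    D.B w (∑ i ∈ I, f i) = ∑ i ∈ I, D.B w (f i) := by
  rw [B_symm, B_sum_left]
  exact Finset.sum_congr rfl fun i _ => B_symm _ _

theorem e_self (s : D.S) : D.e s s = 1 := by simp [Rd.e]

theorem e_ne {s t : D.S} (h : t ≠ s) : D.e s t = 0 := by
  simp [Rd.e, Pi.single_eq_of_ne h]

theorem e_nonneg (s t : D.S) : 0 ≤ D.e s t := by
  by_cases h : t = s
  · subst h; rw [e_self]; norm_num
  · rw [e_ne h]

theorem e_ne_zero (s : D.S) : D.e s ≠ 0 := by
  intro h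
  have := congrFun h s
  rw [e_self] at this
  exact one_ne_zero this

theorem eq_sum_e (v : D.V) : v = ∑ s, v s • D.e s := by
  conv_lhs => rw [← Finset.univ_sum_single v]
  refine Finset.sum_congr rfl fun t _ => ?_
  rw [Rd.e, ← Pi.single_smul, smul_eq_mul, mul_one]

theorem B_e (s t : D.S) : D.B (D.e s) (D.e t) = D.k s t := by
  unfold Rd.B bform
  rw [Finset.sum_eq_single s, Finset.sum_eq_single t]
  · rw [e_self, e_self]; ring
  · intro t' _ ht'
    rw [e_ne ht']; ring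
  · intro h; exact absurd (Finset.mem_univ _) h
  · intro s' _ hs'
    refine Finset.sum_eq_zero fun t' _ => ?_
    rw [e_ne hs']; ring
  · intro h; exact absurd (Finset.mem_univ _) h

theorem B_e_self (s : D.S) : D.B (D.e s) (D.e s) = 1 := by rw [B_e, D.diag]

theorem B_expand (v w : D.V) : D.B v w = ∑ s, w s * D.B v (D.e s) := by
  conv_lhs => rw [eq_sum_e w]
  rw [B_sum_right]
  exact Finset.sum_congr rfl fun s _ => B_smul_right _ _ _

/-! ## the action -/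

theorem ρ_mul (g h : D.W) (v : D.V) : D.ρ (g * h) v = D.ρ g (D.ρ h v) := by
  rw [map_mul, Module.End.mul_apply]

theorem ρ_one (v : D.V) : D.ρ 1 v = v := by
  rw [map_one]; rfl

theorem ρ_inv_ρ (g : D.W) (v : D.V) : D.ρ g⁻¹ (D.ρ g v) = v := by
  rw [← ρ_mul, inv_mul_cancel, ρ_one]

theorem ρ_ρ_inv (g : D.W) (v : D.V) : D.ρ g (D.ρ g⁻¹ v) = v := by
  rw [← ρ_mul, mul_inv_cancel, ρ_one]

theorem ρ_inj (g : D.W) : Function.Injective (D.ρ g) :=
  Function.LeftInverse.injective (g := D.ρ g⁻¹) (ρ_inv_ρ g)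

theorem ρ_σ (s : D.S) (v : D.V) : D.ρ (D.σ s) v = v - (2 * D.B v (D.e s)) • D.e s := D.refl s v

theorem ρ_σ_e (s : D.S) : D.ρ (D.σ s) (D.e s) = -D.e s := by
  rw [ρ_σ, B_e_self]
  module

theorem ρ_σ_σ (s : D.S) (v : D.V) : D.ρ (D.σ s) (D.ρ (D.σ s) v) = v := by
  rw [ρ_σ s (D.ρ (D.σ s) v), ρ_σ s v, B_sub_left, B_smul_left, B_e_self]
  module

theorem eq_one_of_ρ {w : D.W} (h : D.ρ w = 1) : w = 1 := by
  apply D.triv
  intro s t
  rw [h]
  exact e_nonneg s t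

theorem ρ_injective : Function.Injective D.ρ := by
  intro g h hgh
  have h1 : D.ρ (g⁻¹ * h) = 1 := by
    refine LinearMap.ext fun v => ?_
    rw [ρ_mul, ← hgh, ρ_inv_ρ]
    rfl
  exact inv_mul_eq_one.1 (eq_one_of_ρ h1)

theorem σ_sq (s : D.S) : D.σ s * D.σ s = 1 := by
  apply eq_one_of_ρ
  refine LinearMap.ext fun v => ?_
  rw [ρ_mul, ρ_σ_σ]
  rfl

theorem σ_inv (s : D.S) : (D.σ s)⁻¹ = D.σ s := inv_eq_of_mul_eq_one_left (σ_sq s)

theorem σ_ne_one (s : D.S) : D.σ s ≠ 1 := by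
  intro h
  have h1 := ρ_σ_e s
  rw [h, ρ_one] at h1
  have h2 := congrFun h1 s
  rw [Pi.neg_apply, e_self] at h2
  norm_num at h2

/-- induction on the generators -/
theorem W_induction {p : D.W → Prop} (w : D.W) (one : p 1)
    (mul : ∀ w s, p w → p (w * D.σ s)) : p w := by
  have hw : w ∈ Subgroup.closure (Set.range D.σ) := by rw [D.gen]; trivial
  refine Subgroup.closure_induction_right (p := fun w _ => p w) one ?_ ?_ hw
  · rintro x - _ ⟨s, rfl⟩ hx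
    exact mul x s hx
  · rintro x - _ ⟨s, rfl⟩ hx
    rw [σ_inv]
    exact mul x s hx

/-- induction on the generators, from the left -/
theorem W_induction_left {p : D.W → Prop} (w : D.W) (one : p 1)
    (mul : ∀ w s, p w → p (D.σ s * w)) : p w := by
  have hw : w ∈ Subgroup.closure (Set.range D.σ) := by rw [D.gen]; trivial
  refine Subgroup.closure_induction_left (p := fun w _ => p w) one ?_ ?_ hw
  · rintro _ ⟨s, rfl⟩ x - hx
    exact mul x s hx
  · rintro _ ⟨s, rfl⟩ x - hx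
    rw [σ_inv]
    exact mul x s hx

theorem B_ρ (w : D.W) : ∀ v v' : D.V, D.B (D.ρ w v) (D.ρ w v') = D.B v v' := by
  refine W_induction_left (p := fun w => ∀ v v' : D.V, D.B (D.ρ w v) (D.ρ w v') = D.B v v') w ?_ ?_
  · intro v v'
    rw [ρ_one, ρ_one]
  · intro w s ih v v'
    rw [ρ_mul, ρ_mul, ← ih v v', ρ_σ, ρ_σ, B_sub_left, B_sub_right, B_sub_right,
      B_smul_left, B_smul_left, B_smul_right, B_smul_right, B_e_self,
      B_symm (D.e s) (D.ρ w v')]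
    ring

theorem B_ρ_inv (g : D.W) (v w : D.V) : D.B (D.ρ g⁻¹ v) w = D.B v (D.ρ g w) := by
  rw [← B_ρ g (D.ρ g⁻¹ v) w, ρ_ρ_inv]

theorem B_ρ_inv' (g : D.W) (v w : D.V) : D.B v (D.ρ g⁻¹ w) = D.B (D.ρ g v) w := by
  rw [B_symm, B_ρ_inv, B_symm]

/-! ## roots and reflections -/

theorem rt_e (s : D.S) : D.e s ∈ D.Rt := ⟨1, s, (ρ_one _).symm⟩

theorem rt_ρ {φ : D.V} (h : φ ∈ D.Rt) (g : D.W) : D.ρ g φ ∈ D.Rt := by
  obtain ⟨w, s, rfl⟩ := h
  exact ⟨g * w, s, by rw [ρ_mul]⟩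

theorem rt_ρ_iff {φ : D.V} (g : D.W) : D.ρ g φ ∈ D.Rt ↔ φ ∈ D.Rt := by
  refine ⟨fun h => ?_, fun h => rt_ρ h g⟩
  have := rt_ρ h g⁻¹
  rwa [ρ_inv_ρ] at this

theorem rt_neg {φ : D.V} (h : φ ∈ D.Rt) : -φ ∈ D.Rt := by
  obtain ⟨w, s, rfl⟩ := h
  exact ⟨w * D.σ s, s, by rw [ρ_mul, ρ_σ_e, map_neg]⟩

theorem B_rt {φ : D.V} (h : φ ∈ D.Rt) : D.B φ φ = 1 := by
  obtain ⟨w, s, rfl⟩ := h
  rw [B_ρ, B_e_self]

theorem rt_ne_zero {φ : D.V} (h : φ ∈ D.Rt) : φ ≠ 0 := by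
  rintro rfl
  have := B_rt h
  rw [B_zero_left] at this
  exact zero_ne_one this

theorem ρ_conj (w : D.W) (s : D.S) (x : D.V) :
    D.ρ (w * D.σ s * w⁻¹) x = x - (2 * D.B x (D.ρ w (D.e s))) • D.ρ w (D.e s) := by
  rw [ρ_mul, ρ_mul, ρ_σ, map_sub, map_smul, ρ_ρ_inv, B_ρ_inv]

theorem ρ_rf {φ : D.V} (h : φ ∈ D.Rt) (x : D.V) :
    D.ρ (D.rf φ) x = x - (2 * D.B x φ) • φ := by
  have h' : ∃ p : D.W × D.S, φ = D.ρ p.1 (D.e p.2) := by
    obtain ⟨w, s, hws⟩ := h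
    exact ⟨(w, s), hws⟩
  unfold Rd.rf
  rw [dif_pos h', ρ_conj, ← h'.choose_spec]

theorem rf_unique {φ : D.V} (h : φ ∈ D.Rt) {r : D.W}
    (hr : ∀ x, D.ρ r x = x - (2 * D.B x φ) • φ) : D.rf φ = r := by
  apply ρ_injective
  refine LinearMap.ext fun x => ?_
  rw [hr, ρ_rf h]

theorem rf_e (s : D.S) : D.rf (D.e s) = D.σ s := rf_unique (rt_e s) (ρ_σ s)

theorem rf_ρ {φ : D.V} (h : φ ∈ D.Rt) (w : D.W) : D.rf (D.ρ w φ) = w * D.rf φ * w⁻¹ := by
  refine rf_unique (rt_ρ h w) fun x => ?_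
  rw [ρ_mul, ρ_mul, ρ_rf h, map_sub, map_smul, ρ_ρ_inv, B_ρ_inv]

theorem rf_neg {φ : D.V} (h : φ ∈ D.Rt) : D.rf (-φ) = D.rf φ := by
  refine rf_unique (rt_neg h) fun x => ?_
  rw [ρ_rf h, B_neg_right]
  module

theorem ρ_rf_self {φ : D.V} (h : φ ∈ D.Rt) : D.ρ (D.rf φ) φ = -φ := by
  rw [ρ_rf h, B_rt h]
  module

theorem rf_sq {φ : D.V} (h : φ ∈ D.Rt) : D.rf φ * D.rf φ = 1 := by
  apply eq_one_of_ρ
  refine LinearMap.ext fun x => ?_
  rw [ρ_mul, ρ_rf h (D.ρ (D.rf φ) x), ρ_rf h x, B_sub_left, B_smul_left, B_rt h]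
  rw [Module.End.one_apply]
  module

theorem rf_inv {φ : D.V} (h : φ ∈ D.Rt) : (D.rf φ)⁻¹ = D.rf φ :=
  inv_eq_of_mul_eq_one_left (rf_sq h)

theorem rf_inj {φ ψ : D.V} (hφ : φ ∈ D.Rt) (hψ : ψ ∈ D.Rt) (h : D.rf φ = D.rf ψ) :
    ψ = φ ∨ ψ = -φ := by
  have h1 := ρ_rf_self hψ
  rw [← h, ρ_rf hφ] at h1
  have h2 : ψ = (D.B ψ φ) • φ := by
    have h3 : (2 : ℝ) • ψ = (2 : ℝ) • ((D.B ψ φ) • φ) := by
      rw [smul_smul]
      have : (2 * D.B ψ φ) • φ = ψ - (ψ - (2 * D.B ψ φ) • φ) := by abel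
      rw [this, h1, two_smul]
      abel
    exact smul_right_injective _ two_ne_zero h3
  have h4 := B_rt hψ
  rw [h2, B_smul_left, B_smul_right, B_rt hφ, mul_one] at h4
  have h5 : D.B ψ φ = 1 ∨ D.B ψ φ = -1 := by
    have : (D.B ψ φ - 1) * (D.B ψ φ + 1) = 0 := by linarith
    rcases mul_eq_zero.1 this with h3 | h3
    · left; linarith
    · right; linarith
  rcases h5 with h5 | h5
  · left; rw [h2, h5, one_smul]
  · right; rw [h2, h5, neg_one_smul]

end Pool.CS.H91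

namespace Pool.CS

open H91 in
theorem bas_thm : Stmt_BAS := by
  intro D
  exact ⟨B_symm, B_lin, B_e, fun v => B_expand v v, B_ρ, fun φ h => B_rt h, rt_e,
    fun φ h w => rt_ρ h w, fun φ h => rt_neg h, fun φ h v => ρ_rf h v, fun φ h => rf_sq h,
    fun φ h w => rf_ρ h w, fun φ h => rf_neg h, rf_e, fun φ h ψ h' e => rf_inj h h' e,
    fun w h => eq_one_of_ρ h⟩

end Pool.CS
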