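import Pool.Agent.Work.MP_64ea0f_cs_helper91.SGN

set_option autoImplicit false
set_option linter.unusedSectionVars false

/-! # LEN for own use (helper91): inversions. All lemmas in `Pool.CS.H91`. -/

namespace Pool.CS.H91

variable {D : Rd}

theorem mem_N {w : D.W} {φ : D.V} : φ ∈ D.N w ↔ φ ∈ D.Ps ∧ D.ρ w φ ∉ D.Ps := Iff.rfl

theorem N_one : D.N 1 = ∅ := by
  ext φ
  rw [mem_N, ρ_one]
  simp only [Set.mem_empty_iff_false, iff_false]
  rintro ⟨h1, h2⟩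
  exact h2 h1

theorem N_mul_σ {w : D.W} {s : D.S} (h : D.ρ w (D.e s) ∈ D.Ps) :
    D.N (w * D.σ s) = insert (D.e s) (D.ρ (D.σ s) '' D.N w) := by
  ext v
  rw [mem_N, Set.mem_insert_iff, Set.mem_image]
  constructor
  · rintro ⟨h1, h2⟩
    by_cases hne : v = D.e s
    · exact Or.inl hne
    · refine Or.inr ⟨D.ρ (D.σ s) v, ⟨ps_σ h1 hne, ?_⟩, ρ_σ_σ s v⟩
      rwa [ρ_mul] at h2
  · rintro (rfl | ⟨u, ⟨h1, h2⟩, rfl⟩)
    · refine ⟨ps_e s, ?_⟩
      rw [ρ_mul, ρ_σ_e, map_neg]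
      exact ps_not_neg h
    · have hne : u ≠ D.e s := by
        rintro rfl
        exact h2 h
      refine ⟨ps_σ h1 hne, ?_⟩
      rw [ρ_mul, ρ_σ_σ]
      exact h2

theorem e_not_mem_image (w : D.W) (s : D.S) : D.e s ∉ D.ρ (D.σ s) '' D.N w := by
  rintro ⟨v, ⟨hv, -⟩, h5⟩
  have h6 : v = -D.e s := by
    rw [← ρ_σ_σ s v, h5, ρ_σ_e]
  rw [h6] at hv
  exact ps_not_neg (ps_e s) hv

theorem N_finite (w : D.W) : (D.N w).Finite := by
  refine W_induction (p := fun w => (D.N w).Finite) w ?_ ?_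
  · rw [N_one]; exact Set.finite_empty
  · intro w s ih
    refine ((Set.finite_singleton (D.e s)).union (ih.image (D.ρ (D.σ s)))).subset ?_
    rintro v ⟨h1, h2⟩
    by_cases hne : v = D.e s
    · exact Or.inl hne
    · refine Or.inr ⟨D.ρ (D.σ s) v, ⟨ps_σ h1 hne, ?_⟩, ρ_σ_σ s v⟩
      rwa [ρ_mul] at h2

theorem len_mul_σ {w : D.W} {s : D.S} (h : D.ρ w (D.e s) ∈ D.Ps) :
    D.len (w * D.σ s) = D.len w + 1 := by
  unfold Rd.len
  rw [N_mul_σ h, Set.ncard_insert_of_notMem (e_not_mem_image w s) ((N_finite w).image _),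
    Set.ncard_image_of_injective _ (ρ_inj _)]

theorem len_mul_σ' {w : D.W} {s : D.S} (h : D.ρ w (D.e s) ∉ D.Ps) :
    D.len (w * D.σ s) + 1 = D.len w := by
  have h1 : D.ρ (w * D.σ s) (D.e s) ∈ D.Ps := by
    rw [ρ_mul, ρ_σ_e, map_neg]
    exact (not_ps_iff (rt_ρ (rt_e s) w)).1 h
  have h2 := len_mul_σ h1
  rw [mul_assoc, σ_sq, mul_one] at h2
  exact h2.symm

theorem exists_neg {w : D.W} (h : w ≠ 1) : ∃ s, D.ρ w (D.e s) ∉ D.Ps := by
  by_contra hcon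
  push Not at hcon
  exact h (D.triv w fun s t => (hcon s).2 t)

theorem len_eq_zero {w : D.W} : D.len w = 0 ↔ w = 1 := by
  constructor
  · intro h
    by_contra hne
    obtain ⟨s, hs⟩ := exists_neg hne
    have h1 := (Set.ncard_eq_zero (N_finite w)).1 h
    have h2 : D.e s ∈ D.N w := ⟨ps_e s, hs⟩
    rw [h1] at h2
    exact h2
  · rintro rfl
    unfold Rd.len
    rw [N_one, Set.ncard_empty]

theorem sep_eq (w w' : D.W) : {φ | D.On w φ ∧ ¬ D.On w' φ} = D.ρ w '' D.N (w'⁻¹ * w) := by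
  ext φ
  rw [Set.mem_image]
  constructor
  · rintro ⟨h1, h2⟩
    refine ⟨D.ρ w⁻¹ φ, ⟨h1, ?_⟩, ρ_ρ_inv w φ⟩
    rw [ρ_mul, ρ_ρ_inv]
    exact h2
  · rintro ⟨u, ⟨h1, h2⟩, rfl⟩
    rw [ρ_mul] at h2
    refine ⟨?_, h2⟩
    rw [on_iff, ρ_inv_ρ]
    exact h1

theorem sep_finite (w w' : D.W) : {φ | D.On w φ ∧ ¬ D.On w' φ}.Finite := by
  rw [sep_eq]
  exact (N_finite _).image _

theorem len_inv (w : D.W) : D.len w⁻¹ = D.len w := by
  have key : ∀ w : D.W, D.N w⁻¹ = (fun φ => -D.ρ w φ) '' D.N w := by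
    intro w
    ext φ
    rw [Set.mem_image, mem_N]
    constructor
    · rintro ⟨h1, h2⟩
      refine ⟨-D.ρ w⁻¹ φ, ⟨(not_ps_iff (rt_ρ h1.1 _)).1 h2, ?_⟩, ?_⟩
      · rw [map_neg, ρ_ρ_inv]
        exact ps_not_neg h1
      · show -D.ρ w (-D.ρ w⁻¹ φ) = φ
        rw [map_neg, ρ_ρ_inv, neg_neg]
    · rintro ⟨u, ⟨h1, h2⟩, rfl⟩
      refine ⟨(not_ps_iff (rt_ρ h1.1 _)).1 h2, ?_⟩
      show D.ρ w⁻¹ (-D.ρ w u) ∉ D.Ps
      rw [map_neg, ρ_inv_ρ]
      exact ps_not_neg h1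
  unfold Rd.len
  rw [key, Set.ncard_image_of_injective]
  intro a b hab
  exact ρ_inj w (neg_injective hab)

end Pool.CS.H91

namespace Pool.CS

open H91 in
theorem len91_thm : Stmt_LEN := by
  intro D
  exact ⟨N_finite, fun w => len_eq_zero, fun w s h => N_mul_σ h, fun w s h => len_mul_σ h,
    fun w s h => len_mul_σ' h, fun w h => exists_neg h, sep_finite⟩

end Pool.CS
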