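import Pool.Agent.Work.MP_64ea0f_cs_helper91.BAS

set_option autoImplicit false
set_option linter.unusedSectionVars false

/-! # Block SGN (helper91): signs. All lemmas in `Pool.CS.H91`. -/

namespace Pool.CS.H91

variable {D : Rd}

theorem rt_of_ps {φ : D.V} (h : φ ∈ D.Ps) : φ ∈ D.Rt := h.1

theorem ps_nonneg {φ : D.V} (h : φ ∈ D.Ps) (t : D.S) : 0 ≤ φ t := h.2 t

theorem rt_sign {φ : D.V} (h : φ ∈ D.Rt) : (∀ t, 0 ≤ φ t) ∨ (∀ t, φ t ≤ 0) := by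
  obtain ⟨w, s, rfl⟩ := h
  exact D.sign w s

theorem ps_or {φ : D.V} (h : φ ∈ D.Rt) : φ ∈ D.Ps ∨ -φ ∈ D.Ps := by
  rcases rt_sign h with h1 | h1
  · exact Or.inl ⟨h, h1⟩
  · exact Or.inr ⟨rt_neg h, fun t => by simpa using h1 t⟩

theorem ps_not_neg {φ : D.V} (h : φ ∈ D.Ps) : -φ ∉ D.Ps := by
  intro h1
  apply rt_ne_zero h.1
  funext t
  have h2 := h.2 t
  have h3 := h1.2 t
  simp only [Pi.neg_apply] at h3
  show φ t = 0
  linarith

theorem not_ps_iff {φ : D.V} (h : φ ∈ D.Rt) : φ ∉ D.Ps ↔ -φ ∈ D.Ps :=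
  ⟨fun h1 => (ps_or h).resolve_left h1, fun h1 h2 => ps_not_neg h2 h1⟩

theorem ps_e (s : D.S) : D.e s ∈ D.Ps := ⟨rt_e s, e_nonneg s⟩

theorem ht_pos {φ : D.V} (h : φ ∈ D.Ps) : 0 < D.ht φ := by
  unfold Rd.ht
  rcases (Finset.sum_nonneg (fun t _ => h.2 t)).lt_or_eq with h1 | h1
  · exact h1
  · exfalso
    apply rt_ne_zero h.1
    funext t
    have := (Finset.sum_eq_zero_iff_of_nonneg (fun t _ => h.2 t)).1 h1.symm t (Finset.mem_univ t)
    simpa using this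

/-- a root which vanishes outside `s` is `± e s` -/
theorem eq_e_of {φ : D.V} (h : φ ∈ D.Rt) (s : D.S) (h0 : ∀ t, t ≠ s → φ t = 0) :
    φ = D.e s ∨ φ = -D.e s := by
  have hv' : φ = φ s • D.e s := by
    funext t
    by_cases ht : t = s
    · subst ht
      rw [Pi.smul_apply, e_self, smul_eq_mul, mul_one]
    · rw [Pi.smul_apply, e_ne ht, h0 t ht, smul_zero]
  have h1 := B_rt h
  rw [hv', B_smul_left, B_smul_right, B_e_self, mul_one] at h1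
  have h2 : φ s = 1 ∨ φ s = -1 := by
    have : (φ s - 1) * (φ s + 1) = 0 := by linarith
    rcases mul_eq_zero.1 this with h3 | h3
    · left; linarith
    · right; linarith
  rcases h2 with h2 | h2
  · left; rw [hv', h2, one_smul]
  · right; rw [hv', h2, neg_one_smul]

theorem ρ_σ_apply_ne (s : D.S) (v : D.V) {t : D.S} (ht : t ≠ s) : D.ρ (D.σ s) v t = v t := by
  rw [ρ_σ, Pi.sub_apply, Pi.smul_apply, e_ne ht, smul_zero, sub_zero]

theorem ps_σ {φ : D.V} (h : φ ∈ D.Ps) {s : D.S} (hne : φ ≠ D.e s) : D.ρ (D.σ s) φ ∈ D.Ps := by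
  have hrt := rt_ρ h.1 (D.σ s)
  refine ⟨hrt, ?_⟩
  rcases rt_sign hrt with h1 | h1
  · exact h1
  · exfalso
    have hz : ∀ t, t ≠ s → φ t = 0 := by
      intro t ht
      have h2 := h1 t
      rw [ρ_σ_apply_ne s φ ht] at h2
      exact le_antisymm h2 (h.2 t)
    rcases eq_e_of h.1 s hz with h2 | h2
    · exact hne h2
    · have h3 := h.2 s
      rw [h2, Pi.neg_apply, e_self] at h3
      norm_num at h3

theorem on_iff {w : D.W} {φ : D.V} : D.On w φ ↔ D.ρ w⁻¹ φ ∈ D.Ps := Iff.rfl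

theorem on_one {φ : D.V} : D.On 1 φ ↔ φ ∈ D.Ps := by
  rw [on_iff, inv_one, ρ_one]

theorem on_or {φ : D.V} (h : φ ∈ D.Rt) (w : D.W) : D.On w φ ∨ D.On w (-φ) := by
  rw [on_iff, on_iff, map_neg]
  exact ps_or (rt_ρ h w⁻¹)

theorem on_not_neg {φ : D.V} {w : D.W} (h : D.On w φ) : ¬ D.On w (-φ) := by
  rw [on_iff, map_neg]
  exact ps_not_neg h

theorem not_on_iff {φ : D.V} (h : φ ∈ D.Rt) (w : D.W) : ¬ D.On w φ ↔ D.On w (-φ) :=
  ⟨fun h1 => (on_or h w).resolve_left h1, fun h1 h2 => on_not_neg h2 h1⟩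

theorem on_mul (φ : D.V) (w v : D.W) : D.On w φ ↔ D.On (v * w) (D.ρ v φ) := by
  rw [on_iff, on_iff, mul_inv_rev, ρ_mul, ρ_inv_ρ]

theorem on_ρ (φ : D.V) (w v : D.W) : D.On w (D.ρ v φ) ↔ D.On (v⁻¹ * w) φ := by
  rw [on_mul φ (v⁻¹ * w) v, mul_inv_cancel_left]

theorem exists_on {φ : D.V} (h : φ ∈ D.Rt) : ∃ w, D.On w φ := by
  obtain ⟨w, s, rfl⟩ := h
  exact ⟨w, by rw [on_iff, ρ_inv_ρ]; exact ps_e s⟩

theorem rt_of_on {w : D.W} {φ : D.V} (h : D.On w φ) : φ ∈ D.Rt := (rt_ρ_iff w⁻¹).1 h.1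

end Pool.CS.H91

namespace Pool.CS

open H91 in
theorem sgn_thm : Stmt_BAS → Stmt_SGN := by
  intro _ D
  exact ⟨fun φ h => ps_or h, fun φ h => ps_not_neg h, fun h => rt_ne_zero h rfl, ps_e,
    fun s φ h hne => ps_σ h hne, fun φ h w => on_or h w, fun φ w h => on_not_neg h,
    on_mul, fun φ h => exists_on h⟩

end Pool.CS
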