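import Pool.Agent.Work.MP_64ea0f_cs_helper91.GREP

set_option autoImplicit false

namespace Pool.CS

theorem pos_thm : Stmt_POS := by
  intro S _ _ M ρ hρ w s
  have h : ρ = Pool.CS91.rep M := by
    refine M.toCoxeterSystem.ext_simple fun t => ?_
    rw [Pool.CS91.cs_simple]
    refine LinearMap.ext fun v => ?_
    rw [hρ, Pool.CS91.rep_simple_apply, bform_eq91]
    rfl
  subst h
  exact ⟨fun h t => Pool.CS91.rep_nonneg_of_lt h t, fun h t => Pool.CS91.rep_nonpos_of_lt h t⟩

end Pool.CS
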