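import Pool.Agent.Work.MP_64ea0f_cs_helper91.FAC
import Pool.Agent.Work.MP_64ea0f_cs_helper91.POS
import Pool.Agent.Work.MP_64ea0f_cs_helper11.PFF
import Pool.Agent.Work.MP_64ea0f_cs_helper11.RSF
import Pool.Agent.Work.MP_64ea0f_cs_helper17.DEO
import Pool.Agent.Work.MP_64ea0f_cs_helper20.PAR
import Pool.Agent.Work.MP_64ea0f_cs_helper20.RNK
import Pool.Agent.Work.MP_64ea0f_cs_helper40.HGT
import Pool.Agent.Work.MP_64ea0f_cs_helper40.TIT
import Pool.Agent.Work.MP_64ea0f_cs_helper66.PIN
import Pool.Agent.Work.MP_64ea0f_cs_helper66.PCL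
import Pool.Agent.Work.MP_64ea0f_cs_helper79.FPR
import Pool.Agent.Work.MP_64ea0f_cs_helper83.IMC
import Pool.Agent.Work.MP_64ea0f_cs_helper83.NRM
import Pool.Agent.Work.MP_64ea0f_cs_helper93.RES

set_option autoImplicit false

/-! # Stage A assembled: every statement of InterfaceA, unconditional (`Pool.CS.A.xxx`) -/

namespace Pool.CS.A

theorem grep : Stmt_GREP := grep_thm
theorem pos : Stmt_POS := pos_thm
theorem bas : Stmt_BAS := bas_thm
theorem sgn : Stmt_SGN := sgn_thm bas
theorem len : Stmt_LEN := len91_thm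
theorem hgt : Stmt_HGT := hgt_thm bas sgn len
theorem fino : Stmt_FINO := fino91_thm
theorem info : Stmt_INFO := info91_thm
theorem fac : Stmt_FAC := fac_thm bas sgn len info
theorem nst : Stmt_NST := nst_thm bas sgn len fino fac
theorem par : Stmt_PAR := par_thm bas sgn len
theorem tit : Stmt_TIT := tit_thm bas sgn len par
theorem pin : Stmt_PIN := pin_thm tit par
theorem rnk : Stmt_RNK := rnk_thm par bas
theorem pcl : Stmt_PCL := pcl_thm pin rnk tit
theorem fpr : Stmt_FPR := fpr_thm par info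
theorem rsf : Stmt_RSF := rsf_thm bas sgn par pcl
theorem nrm : Stmt_NRM := nrm_thm bas sgn len par
theorem pff : Stmt_PFF := pff_thm bas sgn len par hgt
theorem deo : Stmt_DEO := deo_thm bas sgn len par nrm pff
theorem imc : Stmt_IMC := imc_thm bas sgn len hgt
theorem res : Stmt_RES := res_thm bas par rnk

end Pool.CS.A
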