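import Pool.Agent.Work.MP_64ea0f_cs.InterfaceG1

set_option autoImplicit false

/-! Block PR2: pairs of roots minimal at a common vertex are finitely many modulo `W`. -/

namespace Pool.CS

theorem pr2_thm (hBAS : Stmt_BAS) (hSGN : Stmt_SGN) (hPAR : Stmt_PAR) (hHGT : Stmt_HGT) (hVX1 : Stmt_VX1)
    (hVX3 : Stmt_VX3) (hPSD : Stmt_PSD) (hSAV : Stmt_SAV) (hBFN : Stmt_BFN) (hLIN : Stmt_LIN) (hTHR : Stmt_THR)
    (hORT : Stmt_ORT) (hSMR : Stmt_SMR) (hNRC : Stmt_NRC) (hCLO : Stmt_CLO) (hCLC : Stmt_CLC)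
    (hNCT : Stmt_NCT) : Stmt_PR2 := by
  intro D
  obtain ⟨hsymm, hlin, hBk, hBsum, hinv, hRt1, heRt, hRtw, hRtn, hrfl, hrr, hrc, hrn, hrs, hruniq, hfaith⟩ := hBAS D
  obtain ⟨hS1, hS2, hS3, hS4, hS5, hS6, hS7, hS8, hS9⟩ := hSGN D
  obtain ⟨hVPs, hVact, hact1, hactm, hmem, hmem', hMnw, hPsf, hanti, hup, hVfin⟩ := hVX1 D
  obtain ⟨R0, hR0⟩ := hSMR D
  obtain ⟨C0, hC0, hnrc⟩ := hNRC D
  obtain ⟨R1, hR1⟩ := hNCT D C0
  obtain ⟨⟨P1, hP1f, hP1⟩, -⟩ := hBFN D
  obtain ⟨hO1, -, -, -⟩ := hORT D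
  obtain ⟨hsav, hSaf⟩ := hSAV D
  have htn : ∀ v : D.V, D.ht (-v) = -D.ht v := by
    intro v; simp [Rd.ht]
  have ht0 : ∀ v ∈ D.Ps, 0 ≤ D.ht v := fun v hv => Finset.sum_nonneg fun s _ => hv.2 s
  have hte : ∀ s, D.ht (D.e s) = 1 := by
    intro s; simp [Rd.ht, Rd.e, Finset.sum_pi_single']
  set R : ℝ := max R0 (max R1 1) with hR
  have hRR0 : R0 ≤ R := le_max_left _ _
  have hRR1 : R1 ≤ R := (le_max_left _ _).trans (le_max_right _ _)
  have hR11 : (1 : ℝ) ≤ R := (le_max_right _ _).trans (le_max_right _ _)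
  set F : Set D.V := {φ | φ ∈ D.Rt ∧ |D.ht φ| ≤ R} with hF
  have hFfin : F.Finite := by
    have h1 := hHGT D R
    refine (h1.union (h1.image (fun v => -v))).subset ?_
    rintro φ ⟨h2, h3⟩
    rcases hS1 φ h2 with h4 | h4
    · exact Or.inl ⟨h4, (le_abs_self _).trans h3⟩
    · refine Or.inr ⟨-φ, ⟨h4, ?_⟩, by simp⟩
      rw [htn]
      exact (neg_le_abs _).trans h3
  set P : Set (D.V × D.V) := P1 ∪ (F ×ˢ F) ∪ Set.range (fun s : D.S => (D.e s, D.e s)) ∪
    ⋃ u ∈ {u | D.Sa u}, Set.range (fun s : D.S => (D.e s, -D.e s + (D.cst u (D.e s)) • u)) with hP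
  have hPfin : P.Finite := by
    refine ((hP1f.union (hFfin.prod hFfin)).union (Set.finite_range _)).union ?_
    exact hSaf.biUnion fun u _ => Set.finite_range _
  refine ⟨P, hPfin, ?_⟩
  -- the main statement for closest chambers
  have main : ∀ x, D.Cls x → ∀ φ ψ, D.Mn x φ → D.Mn x ψ → ∃ w : D.W, (D.ρ w φ, D.ρ w ψ) ∈ P := by
    intro x hx φ ψ hφ hψ
    have hV := hx.1
    have hφR : φ ∈ D.Rt := hV.sub hφ.1
    have hψR : ψ ∈ D.Rt := hV.sub hψ.1
    obtain ⟨hc1, hc2, hc3⟩ := hCLC D x hx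
    by_cases hlt : |D.B φ ψ| < 1
    · obtain ⟨w, hw⟩ := hP1 φ hφR ψ hψR hlt
      exact ⟨w, Or.inl (Or.inl (Or.inl hw))⟩
    by_cases heq : φ = ψ
    · subst heq
      obtain ⟨w, s, rfl⟩ := hφR
      refine ⟨w⁻¹, Or.inl (Or.inr ⟨s, ?_⟩)⟩
      have h1 : D.ρ w⁻¹ (D.ρ w (D.e s)) = D.e s := by
        rw [← Module.End.mul_apply, ← map_mul]; simp
      simp only [h1]
    have hle : D.B φ ψ ≤ -1 := by
      rcases (hVX3 D x hV φ ψ).1 hφ hψ heq with h | h
      · exact absurd h hlt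
      · exact h.1
    -- both roots in the same affine subsystem
    have fin : ∀ u, D.Sa u → φ ∈ D.Fd u → ψ ∈ D.Fd u → ∃ w : D.W, (D.ρ w φ, D.ρ w ψ) ∈ P := by
      intro u hu hφu hψu
      have hAf : D.Af u := ⟨1, u, hu, by simp⟩
      have hu0 : u ≠ 0 := by
        intro h
        have := hu.2.2.1
        rw [h] at this
        simp [Rd.ht] at this
      obtain ⟨-, -, -, hp4⟩ := hPSD D u hu.1 hu.2.1 hu.2.2.2 hu0
      have hinφ := (((hLIN D u hu).2 φ).mp hφu).2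
      have hinψ := (((hLIN D u hu).2 ψ).mp hψu).2
      obtain ⟨hb1, -, hb3⟩ := hp4 φ hφR ψ hψR hinφ hinψ
      have hB1 : D.B φ ψ = -1 := le_antisymm hle (neg_le_of_abs_le hb1)
      obtain ⟨t, ht⟩ := hb3 hB1
      obtain ⟨hc0, hline, hclosed, hnFd, hnc, hsub, -, -, -, hW⟩ := hTHR D u hAf φ hφu
      set c := D.cst u φ with hc
      -- `φ - c u` is not in `x`
      have e1 : φ + ((-1 : ℤ) * c : ℝ) • u ∈ D.Rt := (hline _).mpr ⟨-1, by push_cast; ring⟩
      have e2 := hclosed _ e1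
      have hnot : φ + ((-1 : ℤ) * c : ℝ) • u ∉ x := by
        intro hin
        obtain ⟨-, -, -, -, -, hsub', -, -, -, -⟩ := hTHR D u hAf _ e2.2
        have h1 : (φ + ((-1 : ℤ) * c : ℝ) • u) + c • u = φ := by
          push_cast; module
        have h2 : D.Sub (φ + ((-1 : ℤ) * c : ℝ) • u) φ := by
          have := hsub' c hc0.le (by rw [h1]; exact hφR)
          rwa [h1] at this
        have h3 := hφ.2 _ hin h2
        have h4 : c • u = 0 := by
          have : φ + ((-1 : ℤ) * c : ℝ) • u + c • u = φ + c • u := by rw [h3]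
          rw [h1] at this
          simpa using this.symm
        rcases smul_eq_zero.mp h4 with h5 | h5
        · exact hc0.ne' h5
        · exact hu0 h5
      have hin2 : -φ + c • u ∈ x := by
        rcases hV.tot _ e1 with h | h
        · exact absurd h hnot
        · have : -(φ + ((-1 : ℤ) * c : ℝ) • u) = -φ + c • u := by push_cast; module
          rwa [this] at h
      -- the line of `-φ`
      obtain ⟨-, hlineN, hclosedN, -, -, hsubN, -, -, -, -⟩ := hTHR D u hAf (-φ) hnFd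
      rw [hnc] at hlineN
      obtain ⟨i, hi⟩ := (hlineN t).mp (by rw [← ht]; exact hψR)
      have hipos : 1 ≤ i := by
        by_contra hcon
        have hi0 : i ≤ 0 := by omega
        have ht0 : t ≤ 0 := by
          rw [hi]
          exact mul_nonpos_of_nonpos_of_nonneg (by exact_mod_cast hi0) hc0.le
        obtain ⟨-, -, -, -, -, hsubψ, -, -, -, -⟩ := hTHR D u hAf ψ hψu
        have h1 : ψ + (-t) • u = -φ := by rw [ht]; module
        have h2 := hsubψ (-t) (by linarith) (by rw [h1]; exact hRtn φ hφR)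
        rw [h1] at h2
        exact hanti x hV φ hφ.1 (hup x hV ψ hψ.1 (-φ) (hRtn φ hφR) h2)
      have htc : c ≤ t := by
        rw [hi]
        have : (1 : ℝ) ≤ i := by exact_mod_cast hipos
        nlinarith
      have e3 : -φ + c • u ∈ D.Rt := hV.sub hin2
      have e4 := (hclosedN c e3).2
      obtain ⟨-, -, -, -, -, hsub4, -, -, -, -⟩ := hTHR D u hAf _ e4
      have h5 : (-φ + c • u) + (t - c) • u = ψ := by rw [ht]; module
      have h6 : D.Sub (-φ + c • u) ψ := by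
        have := hsub4 (t - c) (by linarith) (by rw [h5]; exact hψR)
        rwa [h5] at this
      have h7 : -φ + c • u = ψ := hψ.2 _ hin2 h6
      -- move `φ` to a simple root
      obtain ⟨w, hw, s, hs, hφs⟩ := (hPAR D (D.sp u)).2.1 φ hφR hinφ
      have hwu : D.ρ w⁻¹ u = u := by
        refine (hsav u hu).2.2.2.2.2.2.1 w⁻¹ (inv_mem ?_)
        exact Subgroup.closure_mono (Set.image_mono Set.subset_union_left) hw
      have h8 : D.ρ w⁻¹ φ = D.e s := by
        rw [hφs, ← Module.End.mul_apply, ← map_mul]; simp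
      have h9 := (hW w⁻¹).2.2
      rw [hwu, h8] at h9
      refine ⟨w⁻¹, Or.inr ?_⟩
      refine Set.mem_biUnion (x := u) hu ⟨s, ?_⟩
      have h10 : D.ρ w⁻¹ ψ = -D.e s + (D.cst u (D.e s)) • u := by
        rw [← h7, map_add, map_neg, map_smul, hwu, h8, h9]
      simp only [h8, h10]
    -- Lemma A
    have lemA : ∀ φ ψ, D.Mn x φ → D.Mn x ψ → D.B φ ψ ≤ -1 →
        |D.ht φ| ≤ R ∨ ∃ u, D.Sa u ∧ φ ∈ D.Fd u ∧ ψ ∈ D.Fd u := by
      intro φ ψ hφ hψ hle
      have hφR : φ ∈ D.Rt := hV.sub hφ.1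
      have hψR : ψ ∈ D.Rt := hV.sub hψ.1
      by_contra hcon
      push Not at hcon
      obtain ⟨hgt, hno⟩ := hcon
      have hfd : ∃ u, D.Sa u ∧ φ ∈ D.Fd u := by
        rcases hS1 φ hφR with h4 | h4
        · rcases hc3 φ h4 hφ with ⟨s, rfl⟩ | h5
          · rw [hte] at hgt
            simp at hgt
            linarith
          · rw [abs_of_nonneg (ht0 φ h4)] at hgt
            obtain ⟨u, hu, hin⟩ := hR0 φ h4 (fun s => (h5 s).le) (lt_of_le_of_lt hRR0 hgt)
            exact ⟨u, hu, ((hLIN D u hu).2 φ).mpr ⟨hφR, hin⟩⟩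
        · have h5 := hc2 (-φ) h4 (by simpa using hφ.1)
          have h6 : R < D.ht (-φ) := by
            have := abs_of_nonneg (ht0 _ h4)
            rw [htn, abs_neg] at this
            rw [htn, ← this]; exact hgt
          obtain ⟨u, hu, hin⟩ := hR0 (-φ) h4 (fun s => (h5 s).le) (lt_of_le_of_lt hRR0 h6)
          refine ⟨u, hu, ((hLIN D u hu).2 φ).mpr ⟨hφR, ?_⟩⟩
          intro s hs
          have := hin s hs
          simpa using this
      obtain ⟨u, hu, hφu⟩ := hfd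
      have hψu : ψ ∉ D.Fd u := fun h => hno u hu hφu h
      have hAf : D.Af u := ⟨1, u, hu, by simp⟩
      have hne : D.B ψ u ≠ 0 := by
        intro h0
        have h1 := (hO1 u hAf).2.1 ψ ⟨hψR, h0, hψu⟩ φ hφu
        rw [hsymm] at h1
        linarith
      have hnear := (hnrc x hV u hAf).2 ψ hψ hne
      have := (hR1 u hu x hx hnear).2 φ hφu hφ
      linarith
    rcases lemA φ ψ hφ hψ hle with hb | ⟨u, hu, hφu, hψu⟩
    · rcases lemA ψ φ hψ hφ (by rw [hsymm]; exact hle) with hb' | ⟨u, hu, hψu, hφu⟩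
      · refine ⟨1, Or.inl (Or.inl (Or.inr ⟨⟨?_, ?_⟩, ⟨?_, ?_⟩⟩))⟩
        · simpa using hφR
        · simpa using hb
        · simpa using hψR
        · simpa using hb'
      · exact fin u hu hφu hψu
    · exact fin u hu hφu hψu
  intro x hx φ ψ hφ hψ
  obtain ⟨w0, hw0⟩ := hCLO D x hx
  obtain ⟨w, hw⟩ := main _ hw0 (D.ρ w0 φ) (D.ρ w0 ψ) ((hMnw x hx w0 φ).mp hφ) ((hMnw x hx w0 ψ).mp hψ)
  refine ⟨w * w0, ?_⟩
  have h : ∀ v, D.ρ (w * w0) v = D.ρ w (D.ρ w0 v) := by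
    intro v; rw [map_mul, Module.End.mul_apply]
  rw [h, h]; exact hw

end Pool.CS
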