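import Pool.Agent.Work.MP_64ea0f_cs.InterfaceG1

set_option autoImplicit false

/-! Block SAF: part of SAV. -/

namespace Pool.CS

theorem saf_thm : Stmt_SAV → Stmt_SAF := fun h D => (h D).2

end Pool.CS
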