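import Pool.Agent.Work.MP_64ea0f_cs_helper91.LEN91

set_option autoImplicit false
set_option linter.unusedSectionVars false

/-! # Block FAC, INFO, FINO, NST (helper91). All lemmas in `Pool.CS.H91`. -/

namespace Pool.CS.H91

variable {D : Rd}

/-- the Chebyshev sequence -/
noncomputable def chb (c : ℝ) : ℕ → ℝ
  | 0 => 0
  | 1 => 1
  | k + 2 => c * chb c (k + 1) - chb c k

theorem chb_succ (c : ℝ) (k : ℕ) : chb c (k + 2) = c * chb c (k + 1) - chb c k := rfl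

theorem chb_mono {c : ℝ} (hc : 2 ≤ c) (k : ℕ) : 0 ≤ chb c k ∧ chb c k + 1 ≤ chb c (k + 1) := by
  induction k with
  | zero => simp [chb]
  | succ k ih =>
    obtain ⟨h1, h2⟩ := ih
    refine ⟨by linarith, ?_⟩
    rw [chb]
    nlinarith

theorem chb_strictMono {c : ℝ} (hc : 2 ≤ c) : StrictMono (chb c) := by
  refine strictMono_nat_of_lt_succ fun n => ?_
  have := (chb_mono hc n).2
  linarith

theorem ρ_rf_rf_left {v w : D.V} (hv : v ∈ D.Rt) (hw : w ∈ D.Rt) {c : ℝ}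
    (hc : c = -(2 * D.B v w)) :
    D.ρ (D.rf v * D.rf w) v = (c ^ 2 - 1) • v + c • w := by
  rw [ρ_mul, ρ_rf hw, map_sub, map_smul, ρ_rf hv v, ρ_rf hv w, B_rt hv, B_symm w v, hc]
  module

theorem ρ_rf_rf_right {v w : D.V} (hv : v ∈ D.Rt) (hw : w ∈ D.Rt) {c : ℝ}
    (hc : c = -(2 * D.B v w)) :
    D.ρ (D.rf v * D.rf w) w = (-c) • v - w := by
  rw [ρ_mul, ρ_rf hw, B_rt hw, map_sub, map_smul, ρ_rf hv w, B_symm w v, hc]
  module

/-- powers of the product of two reflections -/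
theorem ρ_rf_rf_pow {v w : D.V} (hv : v ∈ D.Rt) (hw : w ∈ D.Rt) {c : ℝ}
    (hc : c = -(2 * D.B v w)) (j : ℕ) :
    D.ρ ((D.rf v * D.rf w) ^ j) v = chb c (2 * j + 1) • v + chb c (2 * j) • w := by
  induction j with
  | zero =>
    rw [pow_zero, ρ_one]
    simp [chb]
  | succ j ih =>
    rw [pow_succ', ρ_mul, ih, map_add, map_smul, map_smul, ρ_rf_rf_left hv hw hc,
      ρ_rf_rf_right hv hw hc]
    have e1 : chb c (2 * (j + 1) + 1) = c * chb c (2 * (j + 1)) - chb c (2 * j + 1) := rfl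
    have e2 : chb c (2 * (j + 1)) = c * chb c (2 * j + 1) - chb c (2 * j) := rfl
    rw [e1, e2]
    module

theorem ht_add (v w : D.V) : D.ht (v + w) = D.ht v + D.ht w := by
  simp only [Rd.ht, Pi.add_apply, Finset.sum_add_distrib]

theorem ht_smul (a : ℝ) (v : D.V) : D.ht (a • v) = a * D.ht v := by
  simp only [Rd.ht, Pi.smul_apply, smul_eq_mul, Finset.mul_sum]

theorem ht_neg (v : D.V) : D.ht (-v) = -D.ht v := by
  simp only [Rd.ht, Pi.neg_apply, Finset.sum_neg_distrib]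

/-- nonnegative combinations -/
theorem ps_comb {v w u : D.V} (hv : v ∈ D.Ps) (hw : w ∈ D.Ps) (hu : u ∈ D.Rt) {a b : ℝ}
    (ha : 0 ≤ a) (hb : 0 ≤ b) (h : u = a • v + b • w) : u ∈ D.Ps := by
  refine ⟨hu, fun t => ?_⟩
  rw [h, Pi.add_apply, Pi.smul_apply, Pi.smul_apply, smul_eq_mul, smul_eq_mul]
  have := mul_nonneg ha (hv.2 t)
  have := mul_nonneg hb (hw.2 t)
  linarith

/-- two positive roots with `B v w ≤ -1` are not simultaneously made negative -/
theorem not_both_neg {v w : D.V} (hv : v ∈ D.Ps) (hw : w ∈ D.Ps) (h : D.B v w ≤ -1)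
    (g : D.W) : ¬ (-(D.ρ g v) ∈ D.Ps ∧ -(D.ρ g w) ∈ D.Ps) := by
  rintro ⟨h1, h2⟩
  obtain ⟨c, hc⟩ : ∃ c : ℝ, c = -(2 * D.B v w) := ⟨_, rfl⟩
  have hc2 : 2 ≤ c := by rw [hc]; linarith
  have hmono := chb_strictMono hc2
  have h3 : ∀ j : ℕ, D.ρ ((D.rf v * D.rf w) ^ j) v ∈ D.N g := by
    intro j
    have e := ρ_rf_rf_pow hv.1 hw.1 hc j
    have p1 := (chb_mono hc2 (2 * j + 1)).1
    have p2 := (chb_mono hc2 (2 * j)).1
    refine ⟨ps_comb hv hw (rt_ρ hv.1 _) p1 p2 e, ?_⟩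
    have h4 : -(D.ρ g (D.ρ ((D.rf v * D.rf w) ^ j) v)) ∈ D.Ps := by
      refine ps_comb h1 h2 (rt_neg (rt_ρ (rt_ρ hv.1 _) g)) p1 p2 ?_
      rw [e, map_add, map_smul, map_smul]
      module
    exact (not_ps_iff (rt_ρ (rt_ρ hv.1 _) g)).2 h4
  have hinj : Function.Injective (fun j : ℕ => D.ρ ((D.rf v * D.rf w) ^ j) v) := by
    have hs : StrictMono (fun j : ℕ => D.ht (D.ρ ((D.rf v * D.rf w) ^ j) v)) := by
      intro i j hij
      have a1 := hmono (show 2 * i + 1 < 2 * j + 1 by omega)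
      have a2 := hmono (show 2 * i < 2 * j by omega)
      have b1 := ht_pos hv
      have b2 := ht_pos hw
      show D.ht (D.ρ ((D.rf v * D.rf w) ^ i) v) < D.ht (D.ρ ((D.rf v * D.rf w) ^ j) v)
      rw [ρ_rf_rf_pow hv.1 hw.1 hc, ρ_rf_rf_pow hv.1 hw.1 hc, ht_add, ht_add, ht_smul, ht_smul,
        ht_smul, ht_smul]
      have := mul_lt_mul_of_pos_right a1 b1
      have := mul_lt_mul_of_pos_right a2 b2
      linarith
    intro i j hij
    apply hs.injective
    show D.ht (D.ρ ((D.rf v * D.rf w) ^ i) v) = D.ht (D.ρ ((D.rf v * D.rf w) ^ j) v)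
    have hij' : D.ρ ((D.rf v * D.rf w) ^ i) v = D.ρ ((D.rf v * D.rf w) ^ j) v := hij
    rw [hij']
  exact (Set.infinite_of_injective_forall_mem hinj h3) (N_finite g)

theorem fac {φ ψ : D.V} (h : D.B φ ψ ≤ -1) {w w' : D.W} (h1 : D.On w φ) (h2 : D.On w ψ) :
    ¬ (D.On w' (-φ) ∧ D.On w' (-ψ)) := by
  rintro ⟨h3, h4⟩
  rw [on_iff, map_neg] at h3 h4
  refine not_both_neg h1 h2 (by rw [B_ρ]; exact h) (w'⁻¹ * w) ⟨?_, ?_⟩
  · rw [ρ_mul, ρ_ρ_inv]; exact h3
  · rw [ρ_mul, ρ_ρ_inv]; exact h4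

/-- infinite order -/
theorem rf_rf_pow_ne_one {v w : D.V} (hv : v ∈ D.Rt) (hw : w ∈ D.Rt)
    (h : 1 ≤ |D.B v w|) (h1 : v ≠ w) (h2 : v ≠ -w) (k : ℕ) (hk : 0 < k) :
    (D.rf v * D.rf w) ^ k ≠ 1 := by
  have key : ∀ w : D.V, w ∈ D.Rt → D.B v w ≤ -1 → v ≠ -w → (D.rf v * D.rf w) ^ k ≠ 1 := by
    intro w hw h h2 hone
    obtain ⟨c, hc⟩ : ∃ c : ℝ, c = -(2 * D.B v w) := ⟨_, rfl⟩
    have hc2 : 2 ≤ c := by rw [hc]; linarith
    have e := ρ_rf_rf_pow hv hw hc k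
    rw [hone, ρ_one] at e
    have hmono := chb_strictMono hc2
    have p1 : 0 < chb c (2 * k) := by
      have := hmono (show 0 < 2 * k by omega)
      simpa [chb] using this
    have p2 : 1 < chb c (2 * k + 1) := by
      have := hmono (show 1 < 2 * k + 1 by omega)
      simpa [chb] using this
    obtain ⟨l, hl⟩ : ∃ l : ℝ, l = (chb c (2 * k + 1) - 1) / chb c (2 * k) := ⟨_, rfl⟩
    have hlpos : 0 < l := by
      rw [hl]
      exact div_pos (by linarith) p1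
    have hwl : w = (-l) • v := by
      have h3 : chb c (2 * k) • w = chb c (2 * k) • ((-l) • v) := by
        rw [smul_smul]
        have h4 : chb c (2 * k) * -l = -(chb c (2 * k + 1) - 1) := by
          rw [hl]; field_simp
        rw [h4]
        have h5 : chb c (2 * k) • w = v - chb c (2 * k + 1) • v := by
          nth_rewrite 1 [e]
          abel
        rw [h5]
        module
      exact smul_right_injective _ p1.ne' h3
    have h6 := B_rt hw
    rw [hwl, B_smul_left, B_smul_right, B_rt hv] at h6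
    have h7 : l = 1 := by nlinarith
    apply h2
    rw [hwl, h7]
    module
  rcases le_abs'.1 h with h3 | h3
  · exact key w hw h3 h2
  · have := key (-w) (rt_neg hw) (by rw [B_neg_right]; linarith) (by rw [neg_neg]; exact h1)
    rwa [rf_neg hw] at this

/-- a positive sequence cannot satisfy `c (j+2) = τ c (j+1) - c j` with `τ < 2` -/
theorem no_pos (τ : ℝ) (hτ : τ < 2) (c : ℕ → ℝ) (hc : ∀ j, 0 < c j)
    (hr : ∀ j, c (j + 2) = τ * c (j + 1) - c j) : False := by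
  have key : ∀ j : ℕ, c (j + 1) / c j ≤ c 1 / c 0 - (j : ℝ) * (2 - τ) := by
    intro j
    induction j with
    | zero => simp
    | succ j ih =>
      have h0 := hc j
      have h1 := hc (j + 1)
      have h2 := hr j
      have h3 : c (j + 1 + 1) / c (j + 1) ≤ c (j + 1) / c j - (2 - τ) := by
        rw [show j + 1 + 1 = j + 2 from rfl, h2, div_le_iff₀ h1]
        have h4 : (c (j + 1) / c j - (2 - τ)) * c (j + 1) - (τ * c (j + 1) - c j) =
            (c (j + 1) - c j) ^ 2 / c j := by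
          field_simp
          ring
        have h5 : 0 ≤ (c (j + 1) - c j) ^ 2 / c j := by positivity
        linarith
      push_cast
      linarith
  obtain ⟨n, hn⟩ := exists_nat_gt ((c 1 / c 0) / (2 - τ))
  have hp : 0 < 2 - τ := by linarith
  rw [div_lt_iff₀ hp] at hn
  have h1 := key n
  have h2 : 0 < c (n + 1) / c n := div_pos (hc _) (hc _)
  linarith

/-- if the orbit returns then the product has finite order -/
theorem fin_of_return {v w : D.V} (hv : v ∈ D.Rt) (hw : w ∈ D.Rt) (hb : |D.B v w| < 1)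
    (hb0 : D.B v w ≠ 0) (k : ℕ) (hk : D.ρ ((D.rf v * D.rf w) ^ k) v = v) :
    (D.rf v * D.rf w) ^ k = 1 := by
  have e1 := B_rt hv
  have e2 := B_rt hw
  obtain ⟨b, hbd⟩ : ∃ b : ℝ, b = D.B v w := ⟨_, rfl⟩
  have a1 := ρ_rf_rf_left hv hw (c := -(2 * b)) (by rw [hbd])
  rw [← hbd] at hb hb0
  have hs := B_symm w v
  rw [← hbd] at hs
  have hb' : b ^ 2 < 1 := by
    rw [← sq_abs]
    have := abs_nonneg b
    nlinarith
  apply eq_one_of_ρ
  obtain ⟨T, hT⟩ : ∃ T, T = D.ρ ((D.rf v * D.rf w) ^ k) := ⟨_, rfl⟩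
  rw [← hT] at hk ⊢
  have hcomm : ∀ x, T (D.ρ (D.rf v * D.rf w) x) = D.ρ (D.rf v * D.rf w) (T x) := by
    intro x
    rw [hT, ← ρ_mul, ← ρ_mul, ← pow_succ, ← pow_succ']
  have hk2 : T w = w := by
    have h5 := hcomm v
    rw [hk, a1, map_add, map_smul, map_smul, hk] at h5
    have h6 : (-(2 * b)) • T w = (-(2 * b)) • w := add_left_cancel h5
    have h7 : -(2 * b) ≠ 0 := by
      intro h
      apply hb0
      linarith
    exact smul_right_injective _ h7 h6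
  -- vectors orthogonal to `v, w` are fixed
  have horth : ∀ x, D.B x v = 0 → D.B x w = 0 → T x = x := by
    intro x hx1 hx2
    have h5 : D.ρ (D.rf v * D.rf w) x = x := by
      rw [ρ_mul, ρ_rf hw, hx2, mul_zero, zero_smul, sub_zero, ρ_rf hv, hx1, mul_zero,
        zero_smul, sub_zero]
    have h6 : ∀ j : ℕ, D.ρ ((D.rf v * D.rf w) ^ j) x = x := by
      intro j
      induction j with
      | zero => rw [pow_zero, ρ_one]
      | succ j ih => rw [pow_succ, ρ_mul, h5, ih]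
    rw [hT]
    exact h6 k
  apply LinearMap.ext
  intro x
  have hd : 1 - b ^ 2 ≠ 0 := by linarith
  obtain ⟨p, q, hp, hq⟩ : ∃ p q : ℝ, D.B x v = p + b * q ∧ D.B x w = b * p + q := by
    refine ⟨(D.B x v - b * D.B x w) / (1 - b ^ 2), (D.B x w - b * D.B x v) / (1 - b ^ 2),
      ?_, ?_⟩
    · field_simp
      ring
    · field_simp
      ring
  have hz1 : D.B (x - (p • v + q • w)) v = 0 := by
    rw [B_sub_left, B_add_left, B_smul_left, B_smul_left, e1, hs, hp]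
    ring
  have hz2 : D.B (x - (p • v + q • w)) w = 0 := by
    rw [B_sub_left, B_add_left, B_smul_left, B_smul_left, e2, ← hbd, hq]
    ring
  have h10 := horth _ hz1 hz2
  rw [map_sub, map_add, map_smul, map_smul, hk, hk2] at h10
  have h11 : T x = x := sub_left_injective h10
  rw [h11]
  rfl

/-- `|B v w| < 1`: the product of the reflections has finite order -/
theorem rf_rf_finite_order {v w : D.V} (hv : v ∈ D.Rt) (hw : w ∈ D.Rt)
    (hb : |D.B v w| < 1) : ∃ k : ℕ, 0 < k ∧ (D.rf v * D.rf w) ^ k = 1 := by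
  by_cases hb0 : D.B v w = 0
  · -- orthogonal roots: the product is an involution
    refine ⟨2, by norm_num, ?_⟩
    apply eq_one_of_ρ
    apply LinearMap.ext
    intro x
    have h5 : ∀ z, D.ρ (D.rf v * D.rf w) z = z - (2 * D.B z w) • w - (2 * D.B z v) • v := by
      intro z
      rw [ρ_mul, ρ_rf hw, map_sub, map_smul, ρ_rf hv z, ρ_rf hv w, B_symm w v, hb0]
      module
    have h6 : D.ρ (D.rf v * D.rf w) v = -v := by
      rw [h5, B_rt hv, hb0]
      module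
    have h7 : D.ρ (D.rf v * D.rf w) w = -w := by
      rw [h5, B_rt hw, B_symm w v, hb0]
      module
    rw [pow_two, ρ_mul, h5 x, map_sub, map_sub, map_smul, map_smul, h5 x, h6, h7]
    simp only [Module.End.one_apply]
    module
  · by_contra hno
    push Not at hno
    obtain ⟨R, hR⟩ : ∃ R, R = D.rf v * D.rf w := ⟨_, rfl⟩
    obtain ⟨xs, hxs⟩ : ∃ xs : ℕ → D.V, ∀ j, xs j = D.ρ (R ^ j) v :=
      ⟨fun j => D.ρ (R ^ j) v, fun _ => rfl⟩
    have hne : ∀ k : ℕ, 0 < k → xs k ≠ v := fun k hk h =>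
      hno k hk (fin_of_return hv hw hb hb0 k (by rw [← hR, ← hxs]; exact h))
    have hinj : Function.Injective xs := by
      have key : ∀ i j : ℕ, i < j → xs i ≠ xs j := by
        intro i j hij h
        obtain ⟨d, rfl⟩ := Nat.exists_eq_add_of_lt hij
        apply hne (d + 1) (by omega)
        apply ρ_inj (R ^ i)
        rw [hxs (d + 1), ← ρ_mul, ← pow_add, ← add_assoc, ← hxs, ← h, hxs]
      intro i j h
      rcases lt_trichotomy i j with h5 | h5 | h5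
      · exact absurd h (key i j h5)
      · exact h5
      · exact absurd h.symm (key j i h5)
    have hroot : ∀ j, xs j ∈ D.Rt := fun j => by rw [hxs]; exact rt_ρ hv _
    have hsucc : ∀ j, xs (j + 1) = D.ρ R (xs j) := by
      intro j
      rw [hxs, hxs, ← ρ_mul, pow_succ']
    have hF := N_finite (D := D) R
    have hfin1 : {j : ℕ | xs j ∈ D.N R}.Finite := hF.preimage (hinj.injOn)
    have hfin2 : {j : ℕ | -xs j ∈ D.N R}.Finite := by
      apply hF.preimage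
      intro i _ j _ h
      exact hinj (neg_injective h)
    obtain ⟨j₀, hj₀⟩ : ∃ j₀ : ℕ, ∀ j, j₀ ≤ j → xs j ∉ D.N R ∧ -xs j ∉ D.N R := by
      obtain ⟨B, hB⟩ := (hfin1.union hfin2).bddAbove
      refine ⟨B + 1, fun j hj => ⟨fun h => ?_, fun h => ?_⟩⟩
      · have := hB (Or.inl h)
        omega
      · have := hB (Or.inr h)
        omega
    have hb' : D.B v w ^ 2 < 1 := by
      rw [← sq_abs]
      have := abs_nonneg (D.B v w)
      nlinarith
    have hrec0 : ∀ j, xs (j + 2) = (4 * D.B v w ^ 2 - 2) • xs (j + 1) - xs j := by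
      obtain ⟨c, hc⟩ : ∃ c : ℝ, c = -(2 * D.B v w) := ⟨_, rfl⟩
      intro j
      have e1 : chb c (2 * (j + 2) + 1) = c * chb c (2 * (j + 2)) - chb c (2 * (j + 1) + 1) := rfl
      have e2 : chb c (2 * (j + 2)) = c * chb c (2 * (j + 1) + 1) - chb c (2 * (j + 1)) := rfl
      have e3 : chb c (2 * (j + 1) + 1) = c * chb c (2 * (j + 1)) - chb c (2 * j + 1) := rfl
      have e4 : chb c (2 * (j + 1)) = c * chb c (2 * j + 1) - chb c (2 * j) := rfl
      have e5 : 4 * D.B v w ^ 2 - 2 = c ^ 2 - 2 := by rw [hc]; ring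
      rw [hxs, hxs, hxs, hR, ρ_rf_rf_pow hv hw hc, ρ_rf_rf_pow hv hw hc,
        ρ_rf_rf_pow hv hw hc, e5, e1, e2, e3, e4]
      module
    have hrec : ∀ j, D.ht (xs (j + 2)) =
        (4 * D.B v w ^ 2 - 2) * D.ht (xs (j + 1)) - D.ht (xs j) := by
      intro j
      rw [hrec0 j, sub_eq_add_neg, ht_add, ht_smul, ht_neg]
      ring
    rcases ps_or (hroot j₀) with hp | hp
    · have hall : ∀ j, xs (j₀ + j) ∈ D.Ps := by
        intro j
        induction j with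
        | zero => exact hp
        | succ j ih =>
          rcases ps_or (hroot (j₀ + (j + 1))) with h5 | h5
          · exact h5
          · exfalso
            refine (hj₀ (j₀ + j) (by omega)).1 ⟨ih, ?_⟩
            rw [← hsucc]
            exact (not_ps_iff (hroot _)).2 h5
      exact no_pos (4 * D.B v w ^ 2 - 2) (by linarith)
        (fun j => D.ht (xs (j₀ + j))) (fun j => ht_pos (hall j)) (fun j => hrec (j₀ + j))
    · have hall : ∀ j, -xs (j₀ + j) ∈ D.Ps := by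
        intro j
        induction j with
        | zero => exact hp
        | succ j ih =>
          rcases ps_or (hroot (j₀ + (j + 1))) with h5 | h5
          · exfalso
            refine (hj₀ (j₀ + j) (by omega)).2 ⟨ih, ?_⟩
            rw [map_neg, ← hsucc]
            exact ps_not_neg h5
          · exact h5
      refine no_pos (4 * D.B v w ^ 2 - 2) (by linarith)
        (fun j => D.ht (-xs (j₀ + j))) (fun j => ht_pos (hall j)) (fun j => ?_)
      show D.ht (-xs (j₀ + (j + 2))) =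
          (4 * D.B v w ^ 2 - 2) * D.ht (-xs (j₀ + (j + 1))) - D.ht (-xs (j₀ + j))
      rw [show j₀ + (j + 2) = j₀ + j + 2 by ring, show j₀ + (j + 1) = j₀ + j + 1 by ring,
        ht_neg, ht_neg, ht_neg, hrec (j₀ + j)]
      ring

/-! ## nested half-spaces -/

theorem sub_refl (φ : D.V) : D.Sub φ φ := fun _ h => h

theorem sub_trans {φ ψ χ : D.V} (h1 : D.Sub φ ψ) (h2 : D.Sub ψ χ) : D.Sub φ χ :=
  fun w h => h2 w (h1 w h)

theorem sub_ρ {φ ψ : D.V} (g : D.W) (h : D.Sub φ ψ) : D.Sub (D.ρ g φ) (D.ρ g ψ) := by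
  intro w hw
  rw [on_ρ] at hw ⊢
  exact h _ hw

theorem sub_ρ_iff {φ ψ : D.V} (g : D.W) : D.Sub φ ψ ↔ D.Sub (D.ρ g φ) (D.ρ g ψ) := by
  refine ⟨sub_ρ g, fun h => ?_⟩
  have := sub_ρ g⁻¹ h
  rwa [ρ_inv_ρ, ρ_inv_ρ] at this

theorem sub_neg {φ ψ : D.V} (hφ : φ ∈ D.Rt) (hψ : ψ ∈ D.Rt) (h : D.Sub φ ψ) :
    D.Sub (-ψ) (-φ) := by
  intro w hw
  rw [← not_on_iff hφ]
  intro h1
  exact on_not_neg (h w h1) hw

theorem sub_neg_iff {φ ψ : D.V} (hφ : φ ∈ D.Rt) (hψ : ψ ∈ D.Rt) :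
    D.Sub φ ψ ↔ D.Sub (-ψ) (-φ) := by
  refine ⟨sub_neg hφ hψ, fun h => ?_⟩
  have := sub_neg (rt_neg hψ) (rt_neg hφ) h
  rwa [neg_neg, neg_neg] at this

theorem sub_antisymm {φ ψ : D.V} (hφ : φ ∈ D.Rt) (hψ : ψ ∈ D.Rt) (h1 : D.Sub φ ψ)
    (h2 : D.Sub ψ φ) : φ = ψ := by
  obtain ⟨w, s, rfl⟩ := hψ
  have h3 : D.On w φ := h2 w (by rw [on_iff, ρ_inv_ρ]; exact ps_e s)
  have h4 : ¬ D.On (w * D.σ s) φ := by
    intro h
    have h5 := h1 _ h
    rw [on_iff, mul_inv_rev, ρ_mul, ρ_inv_ρ, σ_inv, ρ_σ_e] at h5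
    exact ps_not_neg (ps_e s) h5
  rw [on_iff, mul_inv_rev, σ_inv, ρ_mul] at h4
  by_contra hne
  apply h4
  apply ps_σ h3
  intro h5
  apply hne
  rw [← h5, ρ_ρ_inv]

/-- `|B φ ψ| < 1`: the half-spaces meet -/
theorem cross {φ ψ : D.V} (hφ : φ ∈ D.Rt) (hψ : ψ ∈ D.Rt) (hb : |D.B φ ψ| < 1) :
    ∃ w, D.On w φ ∧ D.On w ψ := by
  by_contra hcon
  push Not at hcon
  obtain ⟨k, hk, hR⟩ := rf_rf_finite_order hφ hψ hb
  have h1 : D.Sub φ (-ψ) := fun w hw => (not_on_iff hψ w).1 (hcon w hw)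
  have h2 : D.Sub ψ (-φ) := by
    have := sub_neg hφ (rt_neg hψ) h1
    rwa [neg_neg] at this
  have h3 : D.Sub (D.ρ (D.rf ψ) φ) ψ := by
    have := sub_ρ (D.rf ψ) h1
    rwa [map_neg, ρ_rf_self hψ, neg_neg] at this
  have h4 : D.Sub (D.ρ (D.rf φ * D.rf ψ) φ) φ := by
    have := sub_ρ (D.rf φ) (sub_trans h3 h2)
    rwa [map_neg, ρ_rf_self hφ, neg_neg, ← ρ_mul] at this
  have h5 : ∀ j : ℕ, D.Sub (D.ρ ((D.rf φ * D.rf ψ) ^ (j + 1)) φ)
      (D.ρ (D.rf φ * D.rf ψ) φ) := by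
    intro j
    induction j with
    | zero => rw [zero_add, pow_one]; exact sub_refl _
    | succ j ih =>
      refine sub_trans ?_ ih
      rw [pow_succ, ρ_mul]
      exact sub_ρ _ h4
  obtain ⟨n, rfl⟩ : ∃ n, k = n + 1 := ⟨k - 1, by omega⟩
  have h6 := h5 n
  rw [hR, ρ_one] at h6
  have h8 : D.Sub (-φ) ψ := by
    have := sub_ρ (D.rf φ) h6
    rw [ρ_rf_self hφ, ← ρ_mul, ← mul_assoc, rf_sq hφ, one_mul] at this
    exact sub_trans this h3
  have h9 := sub_antisymm hψ (rt_neg hφ) h2 h8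
  rw [h9, B_neg_right, B_rt hφ] at hb
  norm_num at hb

theorem not_sub_of_cross {φ ψ : D.V} (hφ : φ ∈ D.Rt) (hψ : ψ ∈ D.Rt) (hb : |D.B φ ψ| < 1) :
    ¬ D.Sub φ ψ := by
  intro h
  obtain ⟨w, h1, h2⟩ := cross hφ (rt_neg hψ) (by rwa [B_neg_right, abs_neg])
  exact on_not_neg (h w h1) h2

theorem sub_or {φ ψ : D.V} (hφ : φ ∈ D.Rt) (hψ : ψ ∈ D.Rt) (h : 1 ≤ D.B φ ψ) :
    D.Sub φ ψ ∨ D.Sub ψ φ := by
  by_contra hcon
  push Not at hcon
  obtain ⟨h1, h2⟩ := hcon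
  unfold Rd.Sub at h1 h2
  push Not at h1 h2
  obtain ⟨w, h3, h4⟩ := h1
  obtain ⟨w', h5, h6⟩ := h2
  rw [not_on_iff hψ] at h4
  rw [not_on_iff hφ] at h6
  refine fac (φ := φ) (ψ := -ψ) (by rw [B_neg_right]; linarith) h3 h4 (w' := w') ⟨h6, ?_⟩
  rwa [neg_neg]

theorem one_le_of_sub {φ ψ : D.V} (hφ : φ ∈ D.Rt) (hψ : ψ ∈ D.Rt) (h : D.Sub φ ψ) :
    1 ≤ D.B φ ψ := by
  by_contra hcon
  push Not at hcon
  rcases le_or_gt (D.B φ ψ) (-1) with h1 | h1
  · obtain ⟨w, hw⟩ := exists_on hφ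
    have h3 := fun w' => fac h1 hw (h w hw) (w' := w')
    -- `H_{-ψ} ⊆ H_φ ⊆ H_ψ`
    obtain ⟨w', hw'⟩ := exists_on (rt_neg hψ)
    have h4 : D.On w' φ := by
      rcases on_or hφ w' with h5 | h5
      · exact h5
      · exact absurd ⟨h5, hw'⟩ (h3 w')
    exact on_not_neg (h w' h4) hw'
  · exact not_sub_of_cross hφ hψ (abs_lt.2 ⟨h1, hcon⟩) h

end Pool.CS.H91

namespace Pool.CS

open H91 in
theorem fac_thm : Stmt_BAS → Stmt_SGN → Stmt_LEN → Stmt_INFO → Stmt_FAC := by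
  intro _ _ _ _ D φ _ ψ _ h w w' h1 h2
  exact fac h h1 h2

open H91 in
theorem info91_thm : Stmt_INFO := by
  intro D φ hφ ψ hψ h h1 h2 k hk
  exact rf_rf_pow_ne_one hφ hψ h h1 h2 k hk

open H91 in
theorem fino91_thm : Stmt_FINO := by
  intro D φ hφ ψ hψ h
  exact rf_rf_finite_order hφ hψ h

open H91 in
theorem nst_thm : Stmt_BAS → Stmt_SGN → Stmt_LEN → Stmt_FINO → Stmt_FAC → Stmt_NST := by
  intro _ _ _ _ _ D φ hφ ψ hψ
  exact ⟨fun h _ => one_le_of_sub hφ hψ h, sub_or hφ hψ, sub_antisymm hφ hψ, cross hφ hψ,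
    sub_neg_iff hφ hψ, fun w => sub_ρ_iff w⟩

end Pool.CS
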