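import Pool.Agent.Work.MP_64ea0f_cs.InterfaceB
import Pool.Agent.Work.MP_64ea0f_cs_helper91.FAC

set_option autoImplicit false
set_option linter.unusedSectionVars false

/-! # Block VX4 (helper91): connectivity of the cubing. Lemmas in `Pool.CS.H91`. -/

namespace Pool.CS.H91

variable {D : Rd}

theorem vx_neg_not {x : Set D.V} (hx : D.Vx x) {φ : D.V} (h : φ ∈ x) : -φ ∉ x := by
  intro h1
  obtain ⟨w, h2, h3⟩ := hx.cmp φ h (-φ) h1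
  exact on_not_neg h2 h3

theorem vx_up {x : Set D.V} (hx : D.Vx x) {φ ψ : D.V} (h : φ ∈ x) (hψ : ψ ∈ D.Rt)
    (hs : D.Sub φ ψ) : ψ ∈ x := by
  rcases hx.tot ψ hψ with h1 | h1
  · exact h1
  · obtain ⟨w, h2, h3⟩ := hx.cmp φ h (-ψ) h1
    exact absurd h3 (on_not_neg (hs w h2))

theorem vx_neg_mem {x : Set D.V} (hx : D.Vx x) {φ : D.V} (hφ : φ ∈ D.Rt) (h : φ ∉ x) : -φ ∈ x :=
  (hx.tot φ hφ).resolve_left h

theorem vx_sdiff_finite {x y : Set D.V} (hx : D.Vx x) (hy : D.Vx y) : (x \ y).Finite := by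
  have h1 : ((fun φ : D.V => -φ) '' (y \ D.Ps)).Finite := hy.fin.image _
  refine (hx.fin.union h1).subset ?_
  rintro φ ⟨h2, h3⟩
  by_cases h4 : φ ∈ D.Ps
  · right
    refine ⟨-φ, ⟨vx_neg_mem hy (hx.sub h2) h3, ps_not_neg h4⟩, ?_⟩
    show - -φ = φ
    rw [neg_neg]
  · exact Or.inl ⟨h2, h4⟩

theorem vx4 {x y : Set D.V} (hx : D.Vx x) (hy : D.Vx y) {φ : D.V} (h1 : φ ∈ x) (h2 : φ ∉ y) :
    ∃ ψ, D.Mn x ψ ∧ ψ ∉ y ∧ D.Sub ψ φ ∧ (D.fl x ψ \ y).ncard + 1 = (x \ y).ncard := by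
  have hfin := vx_sdiff_finite hx hy
  obtain ⟨A, hA⟩ : ∃ A : Set D.V, A = {ψ | ψ ∈ x \ y ∧ D.Sub ψ φ} := ⟨_, rfl⟩
  have hAf : A.Finite := by
    rw [hA]; exact hfin.subset fun ψ h => h.1
  have hAφ : φ ∈ A := by
    rw [hA]; exact ⟨⟨h1, h2⟩, sub_refl φ⟩
  -- choose `ψ ∈ A` with the smallest number of elements of `A` below it
  obtain ⟨ψ, hψA, hmin⟩ : ∃ ψ ∈ A, ∀ χ ∈ A, {η | η ∈ A ∧ D.Sub η ψ}.ncard ≤
      {η | η ∈ A ∧ D.Sub η χ}.ncard := by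
    obtain ⟨ψ, h3, h4⟩ := Set.exists_min_image A (fun ψ => {η | η ∈ A ∧ D.Sub η ψ}.ncard) hAf
      ⟨φ, hAφ⟩
    exact ⟨ψ, h3, h4⟩
  have hψ : (ψ ∈ x ∧ ψ ∉ y) ∧ D.Sub ψ φ := by rw [hA] at hψA; exact hψA
  refine ⟨ψ, ⟨hψ.1.1, ?_⟩, hψ.1.2, hψ.2, ?_⟩
  · intro χ hχ hs
    by_contra hne
    have h3 : χ ∉ y := fun h => hψ.1.2 (vx_up hy h (hx.sub hψ.1.1) hs)
    have h4 : χ ∈ A := by
      rw [hA]; exact ⟨⟨hχ, h3⟩, sub_trans hs hψ.2⟩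
    have h5 := hmin χ h4
    have h6 : {η | η ∈ A ∧ D.Sub η χ} ⊂ {η | η ∈ A ∧ D.Sub η ψ} := by
      refine ⟨fun η h => ⟨h.1, sub_trans h.2 hs⟩, fun h => ?_⟩
      have h7 := h ⟨hψA, sub_refl ψ⟩
      exact hne (sub_antisymm (hx.sub hχ) (hx.sub hψ.1.1) hs h7.2)
    have h8 := Set.ncard_lt_ncard h6 (hAf.subset fun η h => h.1)
    omega
  · have h3 : D.fl x ψ \ y = (x \ y) \ {ψ} := by
      ext χ
      unfold Rd.fl
      simp only [Set.mem_sdiff, Set.mem_insert_iff, Set.mem_singleton_iff]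
      constructor
      · rintro ⟨h4 | h4, h5⟩
        · exact absurd (h4 ▸ vx_neg_mem hy (hx.sub hψ.1.1) hψ.1.2) h5
        · exact ⟨⟨h4.1, h5⟩, h4.2⟩
      · rintro ⟨⟨h4, h5⟩, h6⟩
        exact ⟨Or.inr ⟨h4, h6⟩, h5⟩
    rw [h3]
    exact Set.ncard_sdiff_singleton_add_one hψ.1 hfin

end Pool.CS.H91

namespace Pool.CS

open H91 in
theorem vx4_thm : Stmt_VX4 := by
  intro D x hx y hy φ h1 h2
  exact vx4 hx hy h1 h2

end Pool.CS
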