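import Pool.Agent.Work.MP_64ea0f_cs_helper17.FR1
import Pool.Agent.Work.MP_64ea0f_cs_helper17.NRT
import Pool.Agent.Work.MP_64ea0f_cs_helper17.PSD
import Pool.Agent.Work.MP_64ea0f_cs_helper17.YJ6G
import Pool.Agent.Work.MP_64ea0f_cs_helper18.BTH
import Pool.Agent.Work.MP_64ea0f_cs_helper18.F3H
import Pool.Agent.Work.MP_64ea0f_cs_helper18.GAMY
import Pool.Agent.Work.MP_64ea0f_cs_helper2.NMV
import Pool.Agent.Work.MP_64ea0f_cs_helper2.RTWG
import Pool.Agent.Work.MP_64ea0f_cs_helper2.YJ1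
import Pool.Agent.Work.MP_64ea0f_cs_helper2.YJ2
import Pool.Agent.Work.MP_64ea0f_cs_helper20.F3G
import Pool.Agent.Work.MP_64ea0f_cs_helper20.MSX
import Pool.Agent.Work.MP_64ea0f_cs_helper20.TRN
import Pool.Agent.Work.MP_64ea0f_cs_helper23.CMP
import Pool.Agent.Work.MP_64ea0f_cs_helper23.LAT
import Pool.Agent.Work.MP_64ea0f_cs_helper23.MSA
import Pool.Agent.Work.MP_64ea0f_cs_helper23.RD2
import Pool.Agent.Work.MP_64ea0f_cs_helper23.SAV
import Pool.Agent.Work.MP_64ea0f_cs_helper23.VX3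
import Pool.Agent.Work.MP_64ea0f_cs_helper24.FAR1
import Pool.Agent.Work.MP_64ea0f_cs_helper24.SHX
import Pool.Agent.Work.MP_64ea0f_cs_helper26.MVE
import Pool.Agent.Work.MP_64ea0f_cs_helper29.CLC
import Pool.Agent.Work.MP_64ea0f_cs_helper29.DEEP
import Pool.Agent.Work.MP_64ea0f_cs_helper29.ORT
import Pool.Agent.Work.MP_64ea0f_cs_helper3.DEEPG
import Pool.Agent.Work.MP_64ea0f_cs_helper31.INT
import Pool.Agent.Work.MP_64ea0f_cs_helper31.RDX
import Pool.Agent.Work.MP_64ea0f_cs_helper31.YJ4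
import Pool.Agent.Work.MP_64ea0f_cs_helper31.YJ5
import Pool.Agent.Work.MP_64ea0f_cs_helper32.CSY
import Pool.Agent.Work.MP_64ea0f_cs_helper39.PartC
import Pool.Agent.Work.MP_64ea0f_cs_helper39.THY
import Pool.Agent.Work.MP_64ea0f_cs_helper39.TORG
import Pool.Agent.Work.MP_64ea0f_cs_helper40.LIN
import Pool.Agent.Work.MP_64ea0f_cs_helper40.NRK
import Pool.Agent.Work.MP_64ea0f_cs_helper41.FIN
import Pool.Agent.Work.MP_64ea0f_cs_helper42.EQV
import Pool.Agent.Work.MP_64ea0f_cs_helper42.OKC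
import Pool.Agent.Work.MP_64ea0f_cs_helper43.DEV
import Pool.Agent.Work.MP_64ea0f_cs_helper43.LBF
import Pool.Agent.Work.MP_64ea0f_cs_helper46.NRC
import Pool.Agent.Work.MP_64ea0f_cs_helper46.QLS
import Pool.Agent.Work.MP_64ea0f_cs_helper48.FOR
import Pool.Agent.Work.MP_64ea0f_cs_helper5.RD1
import Pool.Agent.Work.MP_64ea0f_cs_helper51.ESS
import Pool.Agent.Work.MP_64ea0f_cs_helper51.PER
import Pool.Agent.Work.MP_64ea0f_cs_helper53.DIM
import Pool.Agent.Work.MP_64ea0f_cs_helper53.LSX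
import Pool.Agent.Work.MP_64ea0f_cs_helper53.SMT2
import Pool.Agent.Work.MP_64ea0f_cs_helper53.VAC
import Pool.Agent.Work.MP_64ea0f_cs_helper54.AllD
import Pool.Agent.Work.MP_64ea0f_cs_helper59.LTR
import Pool.Agent.Work.MP_64ea0f_cs_helper60.TCU
import Pool.Agent.Work.MP_64ea0f_cs_helper63.CVX
import Pool.Agent.Work.MP_64ea0f_cs_helper64.COF
import Pool.Agent.Work.MP_64ea0f_cs_helper66.COE
import Pool.Agent.Work.MP_64ea0f_cs_helper66.DRS
import Pool.Agent.Work.MP_64ea0f_cs_helper67.CSU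
import Pool.Agent.Work.MP_64ea0f_cs_helper67.ESN
import Pool.Agent.Work.MP_64ea0f_cs_helper67.F3Y
import Pool.Agent.Work.MP_64ea0f_cs_helper67.NFY
import Pool.Agent.Work.MP_64ea0f_cs_helper76.IVA
import Pool.Agent.Work.MP_64ea0f_cs_helper79.F3CY
import Pool.Agent.Work.MP_64ea0f_cs_helper81.FTG
import Pool.Agent.Work.MP_64ea0f_cs_helper84.BFN
import Pool.Agent.Work.MP_64ea0f_cs_helper84.FAR3
import Pool.Agent.Work.MP_64ea0f_cs_helper84.FIN12
import Pool.Agent.Work.MP_64ea0f_cs_helper84.SBL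
import Pool.Agent.Work.MP_64ea0f_cs_helper87.LOCG
import Pool.Agent.Work.MP_64ea0f_cs_helper87.VX1
import Pool.Agent.Work.MP_64ea0f_cs_helper89.FAR2
import Pool.Agent.Work.MP_64ea0f_cs_helper89.PRL
import Pool.Agent.Work.MP_64ea0f_cs_helper90.F3J
import Pool.Agent.Work.MP_64ea0f_cs_helper91.AllA
import Pool.Agent.Work.MP_64ea0f_cs_helper91.PR2
import Pool.Agent.Work.MP_64ea0f_cs_helper91.SAF
import Pool.Agent.Work.MP_64ea0f_cs_helper91.VX4
import Pool.Agent.Work.MP_64ea0f_cs_helper93.FLD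
import Pool.Agent.Work.MP_64ea0f_cs_helper93.FRE
import Pool.Agent.Work.MP_64ea0f_cs_helper93.NCT
import Pool.Agent.Work.MP_64ea0f_cs_helper93.THR
import Pool.Agent.Work.MP_64ea0f_cs_helper94.AFB
import Pool.Agent.Work.MP_64ea0f_cs_helper94.KCY
import Pool.Agent.Work.MP_64ea0f_cs_helper94.LFN
import Pool.Agent.Work.MP_64ea0f_cs_helper94.ORD
import Pool.Agent.Work.MP_64ea0f_cs_helper94.RAT
import Pool.Agent.Work.MP_64ea0f_cs_helper94.UNQ
import Pool.Agent.Work.MP_64ea0f_cs_helper96.CLO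
import Pool.Agent.Work.MP_64ea0f_cs_helper96.INFY
import Pool.Agent.Work.MP_64ea0f_cs_helper98.KMC
import Pool.Agent.Work.MP_64ea0f_cs_helper98.SMR

set_option autoImplicit false

/-! Assembly (generated): unconditional versions of the blocks. -/

namespace Pool.CS.Y

theorem pff : Stmt_PFF := Pool.CS.A.pff

theorem rsf : Stmt_RSF := Pool.CS.A.rsf

theorem deo : Stmt_DEO := Pool.CS.A.deo

theorem len : Stmt_LEN := Pool.CS.A.len

theorem par : Stmt_PAR := Pool.CS.A.par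

theorem rnk : Stmt_RNK := Pool.CS.A.rnk

theorem cmp : Stmt_CMP := Pool.CS.cmp_thm

theorem smith : Stmt_SMITH := Pool.CS.D.smith

theorem trr : Stmt_TRR := Pool.CS.D.trr

theorem int : Stmt_INT := Pool.CS.int_thm

theorem rtc2 : Stmt_RTC2 := Pool.CS.C.rtc2

theorem ax : Stmt_AX := Pool.CS.C.ax

theorem hgt : Stmt_HGT := Pool.CS.A.hgt

theorem lbf : Stmt_LBF := Pool.CS.lbf_thm

theorem qls : Stmt_QLS := Pool.CS.stmt_QLS

theorem good : Stmt_GOOD := Pool.CS.D.good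

theorem prod : Stmt_PROD := Pool.CS.D.prod

theorem smt2 : Stmt_SMT2 := Pool.CS.smt2_thm prod good trr smith

theorem vac : Stmt_VAC := Pool.CS.vac_thm

theorem pcl : Stmt_PCL := Pool.CS.A.pcl

theorem esn : Stmt_ESN := Pool.CS.esn_thm par rnk

theorem fpr : Stmt_FPR := Pool.CS.A.fpr

theorem imc : Stmt_IMC := Pool.CS.A.imc

theorem nrm : Stmt_NRM := Pool.CS.A.nrm

theorem grep : Stmt_GREP := Pool.CS.A.grep

theorem pos : Stmt_POS := Pool.CS.A.pos

theorem bas : Stmt_BAS := Pool.CS.A.bas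

theorem sgn : Stmt_SGN := Pool.CS.A.sgn

theorem fino : Stmt_FINO := Pool.CS.A.fino

theorem info : Stmt_INFO := Pool.CS.A.info

theorem nst : Stmt_NST := Pool.CS.A.nst

theorem res : Stmt_RES := Pool.CS.A.res

theorem vx4 : Stmt_VX4 := Pool.CS.vx4_thm

theorem afb : Stmt_AFB := Pool.CS.afb_thm

theorem rat : Stmt_RAT := Pool.CS.RAT94.rat_thm

theorem psd : Stmt_PSD := Pool.CS.psd_thm bas

theorem trn : Stmt_TRN := Pool.CS.trn_thm bas sgn len nst par

theorem rdx : Stmt_RDX := Pool.CS.rdx_thm grep pos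

theorem thy : Stmt_THY := Pool.CS.thy_thm bas

theorem ess : Stmt_ESS := Pool.CS.ess_thm pcl rnk

theorem per : Stmt_PER := Pool.CS.per_thm bas par

theorem dim : Stmt_DIM := Pool.CS.dim_thm bas fino rsf

theorem cvx : Stmt_CVX := Pool.CS.cvx_thm bas sgn par

theorem cen : Stmt_CEN := Pool.CS.cen_thm rnk nrm deo esn

theorem coe : Stmt_COE := Pool.CS.coe_thm bas sgn par hgt

theorem drs : Stmt_DRS := Pool.CS.drs_thm bas psd dim

theorem csu : Stmt_CSU := Pool.CS.csu_thm bas par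

theorem nfy : Stmt_NFY := Pool.CS.nfy_thm bas sgn cmp csu pff

theorem bfn : Stmt_BFN := Pool.CS.bfn_thm bas par fino pcl fpr

theorem vx1 : Stmt_VX1 := Pool.CS.vx1_thm bas sgn len

theorem vx2 : Stmt_VX2 := Pool.CS.vx2_thm bas sgn vx1

theorem f3j : Stmt_F3J := Pool.CS.F3J_thm bas sgn len par rnk vx1

theorem kcy : Stmt_KCY := Pool.CS.kcy_thm bas csu cmp pff fpr

theorem lfn : Stmt_LFN := Pool.CS.lfn_thm hgt nst vx1

theorem clo : Stmt_CLO := Pool.CS.clo vx1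

theorem smr : Stmt_SMR := Pool.CS.H98S.stmt_SMR bas sgn hgt coe csu

theorem sav : Stmt_SAV := Pool.CS.sav_thm sgn imc csu psd

theorem vx3 : Stmt_VX3 := Pool.CS.vx3_thm bas vx1 vx2 nst

theorem clc : Stmt_CLC := Pool.CS.blk_CLC bas sgn nst vx1

theorem lin : Stmt_LIN := Pool.CS.lin_thm bas sgn par hgt csu psd sav drs

theorem lsx : Stmt_LSX := Pool.CS.lsx_thm bas vx1 vx2 vx3

theorem tcu : Stmt_TCU := Pool.CS.tcu_thm bas sgn par hgt drs sav

theorem cof : Stmt_COF := Pool.CS.cof_thm bas sgn len par hgt nst vx1 vx2 vx3 vx4 dim afb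

theorem f3cy : Stmt_F3CY := Pool.CS.f3cy_thm bas sgn len nst par rnk pcl fpr nrm deo imc csu cvx trn kcy nfy thy psd dim

theorem saf : Stmt_SAF := Pool.CS.saf_thm sav

theorem thr : Stmt_THR := Pool.CS.thr_thm bas sgn nst imc vx1 psd sav drs lin

theorem ord : Stmt_ORD := Pool.CS.ord_thm bas sgn imc psd sav lin thr

theorem nrt : Stmt_NRT := Pool.CS.nrt_thm ord

theorem yj1 : Stmt_YJ1 := Pool.CS.yj1_thm bas sgn par fpr nst nrm vx1 vx2 vx3 vx4

theorem yj2 : Stmt_YJ2 := Pool.CS.yj2_thm bas par yj1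

theorem f3g : Stmt_F3G := Pool.CS.f3g_thm bas vx1 vx3 lsx

theorem deep : Stmt_DEEP := Pool.CS.deep_thm bas fino info rsf vx1 cof lfn

theorem ort : Stmt_ORT := Pool.CS.blk_ORT bas sgn coe psd sav drs lin thr

theorem yj4 : Stmt_YJ4 := Pool.CS.yj4_thm vx1 vx2 vx3 lsx yj1

theorem yj5 : Stmt_YJ5 := Pool.CS.yj5_thm bas sgn par rnk pcl fpr nst nrm yj1 vx1 vx2 vx3

theorem nrk : Stmt_NRK := Pool.CS.nrk_thm bas sgn par fpr vx1 thr ort

theorem dev : Stmt_DEV := Pool.CS.dev_thm vx1 vx2 vx3 vx4 lsx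

theorem ltr : Stmt_LTR := Pool.CS.ltr_thm thr ort bas

theorem iva : Stmt_IVA := Pool.CS.iva_thm thr

theorem sbl : Stmt_SBL := Pool.CS.sbl_thm bas nst thr ort

theorem far2 : Stmt_FAR2 := Pool.CS.far2_thm bas ord

theorem prl : Stmt_PRL := Pool.CS.prl_thm thr bas

theorem nct : Stmt_NCT := Pool.CS.nct_thm bas sgn par vx1 thr ort sav drs lin tcu

theorem unq : Stmt_UNQ := Pool.CS.UNQ94.unq_thm thr ort

theorem fr1 : Stmt_FR1 := Pool.CS.fr1_thm far2 ord nrt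

theorem bth : Stmt_BTH := Pool.CS.BTH_thm bas vx1 nst thr ort

theorem f3h : Stmt_F3H := Pool.CS.f3h_thm bas fino nst vx1 vx2 vx3 vx4 lsx dev

theorem lat : Stmt_LAT := Pool.CS.lat_thm thr ort ltr rat

theorem msa : Stmt_MSA := Pool.CS.msa_thm iva thr ord bas nrm vx1 yj1

theorem shx : Stmt_SHX := Pool.CS.shx_thm thr ort ord nst bth yj1 vx1

theorem nrc : Stmt_NRC := Pool.CS.stmt_NRC bas sgn vx1 thr ort sbl

theorem f3y : Stmt_F3Y := Pool.CS.f3y_thm bas ax vx1 cmp csu trn f3cy f3h f3g f3j lbf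

theorem fin1 : Stmt_FIN1 := (Pool.CS.fin12_thm sgn vx1 hgt clc smr nct lin sav).1

theorem fin2 : Stmt_FIN2 := (Pool.CS.fin12_thm sgn vx1 hgt clc smr nct lin sav).2

theorem pr2 : Stmt_PR2 := Pool.CS.pr2_thm bas sgn par hgt vx1 vx3 psd sav bfn lin thr ort smr nrc clo clc nct

theorem kmc : Stmt_KMC := Pool.CS.H98K.stmt_KMC thr ord vx1 bth shx prl

theorem gamy : Stmt_GAMY := Pool.CS.GAMY_thm ax f3y lbf lsx dev

theorem msx : Stmt_MSX := Pool.CS.msx_thm shx ord iva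

theorem far1 : Stmt_FAR1 := Pool.CS.far1_thm bas sgn nrc nrk

theorem deepg : Stmt_DEEPG := Pool.CS.deepg_thm bas fino info rsf vx1 pr2

theorem for_ : Stmt_FOR := Pool.CS.for_thm clo saf fin1 fin2 far1 far2 ord ort thr lat csu bas vx1 nrm

theorem rd1 : Stmt_RD1 := Pool.CS.rd1_thm fr1 msx msa nrt iva thr

theorem far3 : Stmt_FAR3 := Pool.CS.far3_thm bas ord nrt far1 far2 dim

theorem rd2 : Stmt_RD2 := Pool.CS.rd2_thm rd1 fr1 msa

theorem mve : Stmt_MVE := Pool.CS.blk_MVE rd2 shx msa ord thr ort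

theorem eqv : Stmt_EQV := Pool.CS.stmt_EQV rd1 rd2 msa

theorem okc : Stmt_OKC := Pool.CS.stmt_OKC far1 far3 unq nrt

theorem fre : Stmt_FRE := Pool.CS.fre_thm rd2 eqv msa fr1 nrt yj2 thr vx1 lsx dev nrm

theorem nmv : Stmt_NMV := Pool.CS.nmv_thm mve rd2 msa fr1 vx2

theorem fld : Stmt_FLD := Pool.CS.fld_thm okc eqv prl mve nmv fre kmc for_ qls yj4 rd2

theorem yj6g : Stmt_YJ6G := Pool.CS.yj6g_thm yj1 yj2 yj4 yj5 dev lsx nrm lbf fld smt2 bas vx1 vx2 vx3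

theorem rtwg : Stmt_RTWG := Pool.CS.rtwg_thm lbf lsx dev yj4 fld rtc2 vx1 vx4

theorem ftg : Stmt_FTG := Pool.CS.ftg_thm bas sgn par res vx1 vx2 vx4 lsx dev yj4 deepg fld

theorem locg : Stmt_LOCG := Pool.CS.locg_thm pcl rnk nrm deepg yj2 yj6g

theorem torg : Stmt_TORG := Pool.CS.torg_thm rsf locg

theorem infy : Stmt_INFY := Pool.CS.infy torg rtwg deepg deep res ftg gamy vac ess esn per cen

theorem csy : Stmt_CSY := Pool.CS.csy_thm torg infy

theorem fin : Stmt_FIN := Pool.CS.fin_thm rdx int csy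

end Pool.CS.Y
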