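import Mathlib

set_option autoImplicit false
set_option linter.unusedSectionVars false

/-! # Roots of an arbitrary Coxeter group of finite rank

`bf M` is the form on `S → ℝ` with `bf M (bs s) (bs t) = -cos (π / M s t)`, and `-2` when `M s t = 0`
(infinity). `rep M` is the geometric representation. -/

namespace Pool.CS91

open CoxeterSystem

section

variable {S : Type} [Fintype S] [DecidableEq S]

/-! ## 1. The form -/

/-- the entries of the form -/
noncomputable def cf (M : CoxeterMatrix S) (s t : S) : ℝ :=
  if M s t = 0 then -2 else -Real.cos (Real.pi / M s t)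

/-- the symmetric bilinear form -/
noncomputable def bf (M : CoxeterMatrix S) : LinearMap.BilinForm ℝ (S → ℝ) :=
  Matrix.toBilin' (Matrix.of (cf M))

/-- basis vector (simple root) -/
def bs (s : S) : S → ℝ := Pi.single s 1

theorem cf_symm (M : CoxeterMatrix S) (s t : S) : cf M s t = cf M t s := by
  unfold cf
  rw [M.symmetric t s]

theorem cf_self (M : CoxeterMatrix S) (s : S) : cf M s s = 1 := by
  unfold cf
  rw [M.diagonal s]
  simp

theorem cf_inf (M : CoxeterMatrix S) {s t : S} (h : M s t = 0) : cf M s t = -2 := by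
  unfold cf
  rw [if_pos h]

theorem cf_fin (M : CoxeterMatrix S) {s t : S} (h : M s t ≠ 0) :
    cf M s t = -Real.cos (Real.pi / M s t) := by
  unfold cf
  rw [if_neg h]

theorem cf_nonpos (M : CoxeterMatrix S) {s t : S} (h : s ≠ t) : cf M s t ≤ 0 := by
  by_cases h0 : M s t = 0
  · rw [cf_inf M h0]; norm_num
  · rw [cf_fin M h0]
    have h1 := M.off_diagonal s t h
    have h2 : 2 ≤ M s t := by omega
    have h3 : (2 : ℝ) ≤ M s t := by exact_mod_cast h2
    have h4 : 0 ≤ Real.cos (Real.pi / M s t) := by
      apply Real.cos_nonneg_of_neg_pi_div_two_le_of_le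
      · have : 0 ≤ Real.pi / M s t := by positivity
        have := Real.pi_pos
        linarith
      · apply div_le_div_of_nonneg_left Real.pi_pos.le (by norm_num) h3
    linarith

theorem bf_apply (M : CoxeterMatrix S) (v w : S → ℝ) :
    bf M v w = ∑ s, ∑ t, v s * w t * cf M s t := by
  unfold bf
  rw [Matrix.toBilin'_apply]
  refine Finset.sum_congr rfl fun s _ => Finset.sum_congr rfl fun t _ => ?_
  simp only [Matrix.of_apply]
  ring

theorem bf_symm (M : CoxeterMatrix S) (v w : S → ℝ) : bf M v w = bf M w v := by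
  rw [bf_apply, bf_apply, Finset.sum_comm]
  refine Finset.sum_congr rfl fun s _ => Finset.sum_congr rfl fun t _ => ?_
  rw [cf_symm M t s]
  ring

theorem bf_basis (M : CoxeterMatrix S) (s t : S) : bf M (bs s) (bs t) = cf M s t := by
  unfold bf bs
  rw [Matrix.toBilin'_single]
  rfl

theorem bf_self (M : CoxeterMatrix S) (s : S) : bf M (bs s) (bs s) = 1 := by
  rw [bf_basis, cf_self]

@[simp] theorem bf_zero_left (M : CoxeterMatrix S) (w : S → ℝ) : bf M 0 w = 0 := by
  rw [map_zero]; rfl

@[simp] theorem bf_zero_right (M : CoxeterMatrix S) (w : S → ℝ) : bf M w 0 = 0 := by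
  rw [map_zero]

theorem bf_add_left (M : CoxeterMatrix S) (v w u : S → ℝ) :
    bf M (v + w) u = bf M v u + bf M w u := by
  rw [map_add]; rfl

theorem bf_add_right (M : CoxeterMatrix S) (v w u : S → ℝ) :
    bf M u (v + w) = bf M u v + bf M u w := by
  rw [map_add]

theorem bf_sub_left (M : CoxeterMatrix S) (v w u : S → ℝ) :
    bf M (v - w) u = bf M v u - bf M w u := by
  rw [map_sub]; rfl

theorem bf_sub_right (M : CoxeterMatrix S) (v w u : S → ℝ) :
    bf M u (v - w) = bf M u v - bf M u w := by
  rw [map_sub]

theorem bf_neg_left (M : CoxeterMatrix S) (v w : S → ℝ) : bf M (-v) w = -bf M v w := by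
  rw [map_neg]; rfl

theorem bf_neg_right (M : CoxeterMatrix S) (v w : S → ℝ) : bf M v (-w) = -bf M v w := by
  rw [map_neg]

theorem bf_smul_left (M : CoxeterMatrix S) (a : ℝ) (v w : S → ℝ) :
    bf M (a • v) w = a * bf M v w := by
  rw [map_smul]; rfl

theorem bf_smul_right (M : CoxeterMatrix S) (a : ℝ) (v w : S → ℝ) :
    bf M v (a • w) = a * bf M v w := by
  rw [map_smul]; rfl

theorem bf_sum_left (M : CoxeterMatrix S) {ι : Type*} (I : Finset ι) (f : ι → (S → ℝ))
    (w : S → ℝ) : bf M (∑ i ∈ I, f i) w = ∑ i ∈ I, bf M (f i) w := by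
  rw [map_sum, LinearMap.sum_apply]

theorem bf_sum_right (M : CoxeterMatrix S) {ι : Type*} (I : Finset ι) (f : ι → (S → ℝ))
    (w : S → ℝ) : bf M w (∑ i ∈ I, f i) = ∑ i ∈ I, bf M w (f i) := by
  rw [map_sum]

theorem bs_self (s : S) : (bs s : S → ℝ) s = 1 := by simp [bs]

theorem bs_ne {s t : S} (h : t ≠ s) : (bs s : S → ℝ) t = 0 := by
  simp [bs, Pi.single_eq_of_ne h]

theorem bs_nonneg (s t : S) : 0 ≤ (bs s : S → ℝ) t := by
  by_cases h : t = s
  · subst h; rw [bs_self]; norm_num
  · rw [bs_ne h]

theorem bs_inj : Function.Injective (bs : S → (S → ℝ)) := by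
  intro s t h
  by_contra hne
  have h1 := congrFun h s
  rw [bs_self, bs_ne hne] at h1
  exact one_ne_zero h1

theorem eq_sum_bs (v : S → ℝ) : v = ∑ s, v s • bs s := by
  conv_lhs => rw [← Finset.univ_sum_single v]
  refine Finset.sum_congr rfl fun t _ => ?_
  rw [bs, ← Pi.single_smul, smul_eq_mul, mul_one]

theorem bf_expand (M : CoxeterMatrix S) (v w : S → ℝ) :
    bf M v w = ∑ s, w s * bf M v (bs s) := by
  conv_lhs => rw [eq_sum_bs w]
  rw [bf_sum_right]
  refine Finset.sum_congr rfl fun s _ => ?_
  rw [bf_smul_right]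

/-! ## 2. The geometric representation -/

/-- the simple reflection -/
noncomputable def sr (M : CoxeterMatrix S) (s : S) : Module.End ℝ (S → ℝ) where
  toFun v := v - (2 * bf M v (bs s)) • bs s
  map_add' v w := by
    rw [bf_add_left, mul_add, add_smul]
    abel
  map_smul' a v := by
    rw [bf_smul_left, RingHom.id_apply, smul_sub, smul_smul]
    congr 2
    ring

theorem sr_apply (M : CoxeterMatrix S) (s : S) (v : S → ℝ) :
    sr M s v = v - (2 * bf M v (bs s)) • bs s := rfl

theorem sr_iter {V : Type} [AddCommGroup V] [Module ℝ V] (f g : Module.End ℝ V) (u v : V)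
    (θ : ℝ) (hfu : f u = -u) (hfv : f v = v + (2 * Real.cos θ) • u) (hgv : g v = -v)
    (hgu : g u = u + (2 * Real.cos θ) • v) (k : ℕ) :
    Real.sin θ • ((f * g) ^ k) u =
        Real.sin ((2 * k + 1) * θ) • u + Real.sin (2 * k * θ) • v ∧
      Real.sin θ • ((f * g) ^ k) v =
        -(Real.sin (2 * k * θ) • u + Real.sin ((2 * k - 1) * θ) • v) := by
  have hTu : (f * g) u = (4 * Real.cos θ ^ 2 - 1) • u + (2 * Real.cos θ) • v := by
    rw [Module.End.mul_apply, hgu, map_add, map_smul, hfu, hfv, smul_add, smul_smul, sub_smul,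
      one_smul]
    have : 2 * Real.cos θ * (2 * Real.cos θ) = 4 * Real.cos θ ^ 2 := by ring
    rw [this]
    abel
  have hTv : (f * g) v = -v - (2 * Real.cos θ) • u := by
    rw [Module.End.mul_apply, hgv, map_neg, hfv]
    abel
  have e1 : ∀ k : ℕ, Real.sin ((2 * (k + 1 : ℕ) + 1) * θ) =
      (4 * Real.cos θ ^ 2 - 1) * Real.sin ((2 * k + 1) * θ) -
        2 * Real.cos θ * Real.sin (2 * k * θ) := by
    intro k
    have a1 : (2 * ((k + 1 : ℕ) : ℝ) + 1) * θ = (2 * k + 1) * θ + θ + θ := by push_cast; ring
    have a2 : 2 * (k : ℝ) * θ = (2 * k + 1) * θ - θ := by ring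
    rw [a1, a2, Real.sin_add, Real.sin_sub, Real.sin_add, Real.cos_add]
    have e : Real.sin θ ^ 2 = 1 - Real.cos θ ^ 2 := by
      have := Real.sin_sq_add_cos_sq θ
      linarith
    ring_nf
    rw [e]
    ring
  have e2 : ∀ k : ℕ, Real.sin (2 * (k + 1 : ℕ) * θ) =
      2 * Real.cos θ * Real.sin ((2 * k + 1) * θ) - Real.sin (2 * k * θ) := by
    intro k
    have a1 : 2 * ((k + 1 : ℕ) : ℝ) * θ = (2 * k + 1) * θ + θ := by push_cast; ring
    have a2 : 2 * (k : ℝ) * θ = (2 * k + 1) * θ - θ := by ring
    rw [a1, a2, Real.sin_add, Real.sin_sub]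
    ring
  have e3 : ∀ k : ℕ, Real.sin ((2 * (k + 1 : ℕ) - 1) * θ) =
      2 * Real.cos θ * Real.sin (2 * k * θ) - Real.sin ((2 * k - 1) * θ) := by
    intro k
    have a1 : (2 * ((k + 1 : ℕ) : ℝ) - 1) * θ = 2 * k * θ + θ := by push_cast; ring
    have a2 : (2 * (k : ℝ) - 1) * θ = 2 * k * θ - θ := by ring
    rw [a1, a2, Real.sin_add, Real.sin_sub]
    ring
  have e4 : ∀ k : ℕ, Real.sin (2 * (k + 1 : ℕ) * θ) =
      (4 * Real.cos θ ^ 2 - 1) * Real.sin (2 * k * θ) -
        2 * Real.cos θ * Real.sin ((2 * k - 1) * θ) := by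
    intro k
    have a1 : 2 * ((k + 1 : ℕ) : ℝ) * θ = 2 * k * θ + θ + θ := by push_cast; ring
    have a2 : (2 * (k : ℝ) - 1) * θ = 2 * k * θ - θ := by ring
    rw [a1, a2, Real.sin_add, Real.sin_sub, Real.sin_add, Real.cos_add]
    have e : Real.sin θ ^ 2 = 1 - Real.cos θ ^ 2 := by
      have := Real.sin_sq_add_cos_sq θ
      linarith
    ring_nf
    rw [e]
    ring
  induction k with
  | zero =>
    refine ⟨?_, ?_⟩
    · simp
    · have a1 : (2 * ((0 : ℕ) : ℝ) - 1) * θ = -θ := by push_cast; ring
      rw [a1, Real.sin_neg]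
      simp
  | succ k ih =>
    obtain ⟨ih1, ih2⟩ := ih
    constructor
    · rw [pow_succ', Module.End.mul_apply, ← map_smul, ih1, map_add, map_smul, map_smul, hTu,
        hTv, e1, e2]
      module
    · rw [pow_succ', Module.End.mul_apply, ← map_smul, ih2, map_neg, map_add, map_smul, map_smul,
        hTu, hTv, e3, e4]
      module

theorem sr_pow (M : CoxeterMatrix S) (s t : S) : (sr M s * sr M t) ^ M s t = 1 := by
  by_cases h0 : M s t = 0
  · rw [h0, pow_zero]
  by_cases hst : s = t
  · subst hst
    rw [M.diagonal s, pow_one]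
    refine LinearMap.ext fun v => ?_
    rw [Module.End.mul_apply, sr_apply M s (sr M s v)]
    have h1 : bf M (sr M s v) (bs s) = -bf M v (bs s) := by
      rw [sr_apply, bf_sub_left, bf_smul_left, bf_self]
      ring
    rw [h1, sr_apply, Module.End.one_apply]
    module
  · set m := M s t with hm
    have hm1 : m ≠ 1 := M.off_diagonal s t hst
    have hm2 : 2 ≤ m := by omega
    set θ : ℝ := Real.pi / m with hθ
    have hmR : (2 : ℝ) ≤ m := by exact_mod_cast hm2
    have hpi := Real.pi_pos
    have hθ0 : 0 < θ := by positivity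
    have hθ1 : θ < Real.pi := by
      rw [hθ, div_lt_iff₀ (by linarith)]
      nlinarith
    have hsin : 0 < Real.sin θ := Real.sin_pos_of_pos_of_lt_pi hθ0 hθ1
    have hmθ : (m : ℝ) * θ = Real.pi := by
      rw [hθ]
      field_simp
    have hst' : bf M (bs s) (bs t) = -Real.cos θ := by rw [bf_basis, cf_fin M h0]
    have hts' : bf M (bs t) (bs s) = -Real.cos θ := by rw [bf_symm, hst']
    have it := sr_iter (sr M s) (sr M t) (bs s) (bs t) θ
      (by rw [sr_apply, bf_self]; module)
      (by rw [sr_apply, hts']; module)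
      (by rw [sr_apply, bf_self]; module)
      (by rw [sr_apply, hst']; module) m
    have s1 : Real.sin (2 * m * θ) = 0 := by
      have : 2 * (m : ℝ) * θ = 2 * Real.pi := by rw [mul_assoc, hmθ]
      rw [this, Real.sin_two_pi]
    have s2 : Real.sin ((2 * m + 1) * θ) = Real.sin θ := by
      have : (2 * (m : ℝ) + 1) * θ = θ + 2 * Real.pi := by
        rw [add_mul, mul_assoc, hmθ]; ring
      rw [this, Real.sin_add_two_pi]
    have s3 : Real.sin ((2 * m - 1) * θ) = -Real.sin θ := by
      have : (2 * (m : ℝ) - 1) * θ = -θ + 2 * Real.pi := by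
        rw [sub_mul, mul_assoc, hmθ]; ring
      rw [this, Real.sin_add_two_pi, Real.sin_neg]
    rw [s1, s2, s3] at it
    obtain ⟨it1, it2⟩ := it
    have hu : ((sr M s * sr M t) ^ m) (bs s) = bs s := by
      have h1 : Real.sin θ • ((sr M s * sr M t) ^ m) (bs s) =
          Real.sin θ • (bs s : S → ℝ) := by
        rw [it1]; module
      exact smul_right_injective _ hsin.ne' h1
    have hv : ((sr M s * sr M t) ^ m) (bs t) = bs t := by
      have h1 : Real.sin θ • ((sr M s * sr M t) ^ m) (bs t) =
          Real.sin θ • (bs t : S → ℝ) := by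
        rw [it2]; module
      exact smul_right_injective _ hsin.ne' h1
    refine LinearMap.ext fun v => ?_
    set c := Real.cos θ with hc
    have hc2 : (1 : ℝ) - c ^ 2 ≠ 0 := by
      have h1 : 1 - c ^ 2 = Real.sin θ ^ 2 := by
        have := Real.sin_sq_add_cos_sq θ
        linarith
      rw [h1]
      positivity
    set α := bf M v (bs s) with hα
    set β := bf M v (bs t) with hβ
    set x := (α + c * β) / (1 - c ^ 2) with hx
    set y := (β + c * α) / (1 - c ^ 2) with hy
    set v₀ := v + (-x) • bs s + (-y) • (bs t : S → ℝ) with hv0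
    have hbf : ∀ w : S → ℝ, bf M v₀ w = bf M v w - x * bf M (bs s) w - y * bf M (bs t) w := by
      intro w
      rw [hv0, bf_add_left, bf_add_left, bf_smul_left, bf_smul_left]
      ring
    have hs0 : bf M v₀ (bs s) = 0 := by
      rw [hbf, bf_self, hts', ← hα, hx, hy]
      field_simp
      ring
    have ht0 : bf M v₀ (bs t) = 0 := by
      rw [hbf, bf_self, hst', ← hβ, hx, hy]
      field_simp
      ring
    have hf0 : (sr M s * sr M t) v₀ = v₀ := by
      have h1 : sr M t v₀ = v₀ := by
        rw [sr_apply, ht0, mul_zero, zero_smul, sub_zero]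
      have h2 : sr M s v₀ = v₀ := by
        rw [sr_apply, hs0, mul_zero, zero_smul, sub_zero]
      rw [Module.End.mul_apply, h1, h2]
    have hf0' : ∀ k : ℕ, ((sr M s * sr M t) ^ k) v₀ = v₀ := by
      intro k
      induction k with
      | zero => rfl
      | succ k ih => rw [pow_succ, Module.End.mul_apply, hf0, ih]
    have hdec : v = v₀ + x • bs s + y • bs t := by
      rw [hv0]; module
    have : ((sr M s * sr M t) ^ m) v = v := by
      conv_lhs => rw [hdec]
      rw [map_add, map_add, map_smul, map_smul, hu, hv, hf0']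
      exact hdec.symm
    rw [this, Module.End.one_apply]

/-- the geometric representation -/
noncomputable def rep (M : CoxeterMatrix S) : M.Group →* Module.End ℝ (S → ℝ) :=
  M.toCoxeterSystem.lift ⟨sr M, fun s t => sr_pow M s t⟩

theorem rep_simple (M : CoxeterMatrix S) (s : S) : rep M (M.simple s) = sr M s := by
  have h1 := M.toCoxeterSystem.lift_apply_simple
    (f := sr M) (fun s t => sr_pow M s t) s
  rw [CoxeterMatrix.toCoxeterSystem_simple] at h1
  exact h1

theorem rep_simple_apply (M : CoxeterMatrix S) (s : S) (v : S → ℝ) :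
    rep M (M.simple s) v = v - (2 * bf M v (bs s)) • bs s := by
  rw [rep_simple, sr_apply]

theorem rep_mul_apply (M : CoxeterMatrix S) (g h : M.Group) (v : S → ℝ) :
    rep M (g * h) v = rep M g (rep M h v) := by
  rw [map_mul, Module.End.mul_apply]

@[simp] theorem rep_one_apply (M : CoxeterMatrix S) (v : S → ℝ) : rep M 1 v = v := by
  rw [map_one]; rfl

@[simp] theorem rep_inv_apply_self (M : CoxeterMatrix S) (g : M.Group) (v : S → ℝ) :
    rep M g⁻¹ (rep M g v) = v := by
  rw [← rep_mul_apply, inv_mul_cancel, rep_one_apply]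

@[simp] theorem rep_apply_inv_self (M : CoxeterMatrix S) (g : M.Group) (v : S → ℝ) :
    rep M g (rep M g⁻¹ v) = v := by
  rw [← rep_mul_apply, mul_inv_cancel, rep_one_apply]

theorem rep_inj (M : CoxeterMatrix S) (g : M.Group) : Function.Injective (rep M g) :=
  Function.LeftInverse.injective (g := rep M g⁻¹) (rep_inv_apply_self M g)

theorem simple_sq (M : CoxeterMatrix S) (s : S) : M.simple s * M.simple s = 1 :=
  M.toCoxeterSystem.simple_mul_simple_self s

theorem simple_inv (M : CoxeterMatrix S) (s : S) : (M.simple s)⁻¹ = M.simple s :=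
  M.toCoxeterSystem.inv_simple s

theorem cs_simple (M : CoxeterMatrix S) (s : S) : M.toCoxeterSystem.simple s = M.simple s := rfl

theorem rep_simple_self (M : CoxeterMatrix S) (s : S) : rep M (M.simple s) (bs s) = -bs s := by
  rw [rep_simple_apply, bf_self]
  module

/-- invariance of the form -/
theorem bf_rep (M : CoxeterMatrix S) (g : M.Group) :
    ∀ v w : S → ℝ, bf M (rep M g v) (rep M g w) = bf M v w := by
  refine M.toCoxeterSystem.simple_induction (p := fun g => ∀ v w : S → ℝ,
    bf M (rep M g v) (rep M g w) = bf M v w) g ?_ ?_ ?_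
  · intro s v w
    rw [cs_simple, rep_simple_apply, rep_simple_apply, bf_sub_left, bf_sub_right, bf_sub_right,
      bf_smul_left, bf_smul_left, bf_smul_right, bf_smul_right, bf_self, bf_symm M (bs s) w]
    ring
  · intro v w
    rw [rep_one_apply, rep_one_apply]
  · intro g g' hg hg' v w
    rw [rep_mul_apply, rep_mul_apply, hg, hg']

theorem bf_rep_inv (M : CoxeterMatrix S) (g : M.Group) (v w : S → ℝ) :
    bf M (rep M g⁻¹ v) w = bf M v (rep M g w) := by
  rw [← bf_rep M g (rep M g⁻¹ v) w, rep_apply_inv_self]

theorem bf_rep_inv' (M : CoxeterMatrix S) (g : M.Group) (v w : S → ℝ) :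
    bf M v (rep M g⁻¹ w) = bf M (rep M g v) w := by
  rw [bf_symm, bf_rep_inv, bf_symm]

/-! ## 3. Sign of the roots (Tits) -/

/-- the Chebyshev sequence -/
noncomputable def chb (c : ℝ) : ℕ → ℝ
  | 0 => 0
  | 1 => 1
  | k + 2 => c * chb c (k + 1) - chb c k

theorem chb_succ (c : ℝ) (k : ℕ) : chb c (k + 2) = c * chb c (k + 1) - chb c k := rfl

theorem chb_mono {c : ℝ} (hc : 2 ≤ c) (k : ℕ) : 0 ≤ chb c k ∧ chb c k + 1 ≤ chb c (k + 1) := by
  induction k with
  | zero => simp [chb]
  | succ k ih =>
    obtain ⟨h1, h2⟩ := ih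
    refine ⟨by linarith, ?_⟩
    rw [chb]
    nlinarith

theorem chb_sin (θ : ℝ) (k : ℕ) :
    Real.sin θ * chb (2 * Real.cos θ) k = Real.sin (k * θ) ∧
      Real.sin θ * chb (2 * Real.cos θ) (k + 1) = Real.sin ((k + 1 : ℕ) * θ) := by
  induction k with
  | zero => simp [chb]
  | succ k ih =>
    refine ⟨ih.2, ?_⟩
    rw [chb_succ, mul_sub, ih.1]
    have e : Real.sin θ * (2 * Real.cos θ * chb (2 * Real.cos θ) (k + 1)) =
        2 * Real.cos θ * (Real.sin θ * chb (2 * Real.cos θ) (k + 1)) := by ring
    rw [e, ih.2]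
    have e1 : (k : ℝ) * θ = ((k + 1 : ℕ) : ℝ) * θ - θ := by push_cast; ring
    have e2 : ((k + 1 + 1 : ℕ) : ℝ) * θ = ((k + 1 : ℕ) : ℝ) * θ + θ := by push_cast; ring
    rw [e1, e2, Real.sin_sub, Real.sin_add]
    ring

/-- the product of the alternating word of length `k` in `s, t` ending in `t` -/
noncomputable def aw (M : CoxeterMatrix S) (s t : S) (k : ℕ) : M.Group :=
  M.toCoxeterSystem.wordProd (alternatingWord s t k)

variable {M : CoxeterMatrix S}

theorem aw_zero (s t : S) : aw M s t 0 = 1 := by
  unfold aw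
  simp [alternatingWord]

theorem aw_succ (s t : S) (k : ℕ) :
    aw M s t (k + 1) = M.simple (if Even k then t else s) * aw M s t k := by
  unfold aw
  rw [alternatingWord_succ', wordProd_cons]
  rfl

theorem aw_succ_right (s t : S) (k : ℕ) :
    aw M s t (k + 1) = aw M t s k * M.simple t := by
  unfold aw
  rw [alternatingWord_succ, wordProd_concat]
  rfl

theorem length_aw (s t : S) (k : ℕ) : M.toCoxeterSystem.length (aw M s t k) ≤ k := by
  have h := M.toCoxeterSystem.length_wordProd_le (alternatingWord s t k)
  rw [length_alternatingWord] at h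
  exact h

theorem aw_braid (s t : S) (_h0 : M s t ≠ 0) : aw M s t (M s t) = aw M t s (M s t) := by
  unfold aw
  have h := M.toCoxeterSystem.prod_alternatingWord_eq_prod_alternatingWord_sub s t (M s t)
    (by omega)
  rw [h]
  congr 2
  omega

theorem aw_split (s t : S) (m j : ℕ) : ∃ b : M.Group, M.toCoxeterSystem.length b ≤ j ∧
    aw M s t (m + j) = b * aw M s t m := by
  induction j with
  | zero => exact ⟨1, by simp, by simp⟩
  | succ j ih =>
    obtain ⟨b, hb, h⟩ := ih
    refine ⟨M.simple (if Even (m + j) then t else s) * b, ?_, ?_⟩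
    · refine (M.toCoxeterSystem.length_mul_le _ _).trans ?_
      have h1 := M.toCoxeterSystem.length_simple (if Even (m + j) then t else s)
      rw [cs_simple] at h1
      omega
    · rw [← add_assoc, aw_succ, h, mul_assoc]

theorem rep_simple_bs (s t : S) :
    rep M (M.simple t) (bs s) = bs s + (-(2 * cf M s t)) • bs t := by
  rw [rep_simple_apply, bf_basis]
  module

/-- the action of the alternating products on the simple root `s` -/
theorem aw_root (s t : S) (c : ℝ) (hc : c = -(2 * cf M s t)) (k : ℕ) :
    rep M (aw M s t k) (bs s) =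
      (chb c (k + 1)) • bs (if Even k then s else t) +
      (chb c k) • bs (if Even k then t else s) := by
  have hst : rep M (M.simple t) (bs s) = bs s + c • bs t := by
    rw [rep_simple_bs, hc]
  have hts : rep M (M.simple s) (bs t) = bs t + c • bs s := by
    rw [rep_simple_bs, cf_symm M t s, hc]
  induction k with
  | zero =>
    rw [aw_zero, rep_one_apply]
    simp [chb]
  | succ k ih =>
    rw [aw_succ, rep_mul_apply, ih]
    have hk := chb_succ c k
    by_cases hev : Even k
    · have hodd : ¬ Even (k + 1) := by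
        rw [Nat.even_add_one]; simpa using hev
      simp only [if_pos hev, if_neg hodd]
      rw [map_add, map_smul, map_smul, hst, rep_simple_self, show k + 1 + 1 = k + 2 from rfl, hk]
      module
    · have heven : Even (k + 1) := by
        rw [Nat.even_add_one]; exact hev
      simp only [if_neg hev, if_pos heven]
      rw [map_add, map_smul, map_smul, hts, rep_simple_self, show k + 1 + 1 = k + 2 from rfl, hk]
      module

theorem pos_main (N : ℕ) :
    ∀ w : M.Group, M.toCoxeterSystem.length w = N → ∀ s : S,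
      M.toCoxeterSystem.length w < M.toCoxeterSystem.length (w * M.simple s) →
        ∀ x, 0 ≤ rep M w (bs s) x := by
  induction N using Nat.strong_induction_on with
  | _ N ih =>
    intro w hw s hs
    by_cases h1 : w = 1
    · subst h1
      intro x
      rw [rep_one_apply]
      exact bs_nonneg s x
    obtain ⟨t, ht⟩ := M.toCoxeterSystem.exists_rightDescent_of_ne_one h1
    have hst : s ≠ t := by
      rintro rfl
      unfold IsRightDescent at ht
      rw [cs_simple] at ht
      omega
    have ht1 : M.toCoxeterSystem.length (w * M.simple t) + 1 = M.toCoxeterSystem.length w :=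
      (M.toCoxeterSystem.isRightDescent_iff).1 ht
    -- the set of good lengths
    let K : ℕ → Prop := fun k =>
      M.toCoxeterSystem.length (w * (aw M s t k)⁻¹) + k = M.toCoxeterSystem.length w
    have hK1 : K 1 := by
      show M.toCoxeterSystem.length (w * (aw M s t 1)⁻¹) + 1 = M.toCoxeterSystem.length w
      have e : aw M s t 1 = M.simple t := by
        rw [aw_succ, aw_zero]; simp
      rw [e, simple_inv]
      exact ht1
    have hKb : ∀ k, K k → k ≤ M.toCoxeterSystem.length w := by
      intro k hk
      have hk' : M.toCoxeterSystem.length (w * (aw M s t k)⁻¹) + k =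
        M.toCoxeterSystem.length w := hk
      omega
    obtain ⟨k, hk, hkmax⟩ : ∃ k, K k ∧ ∀ j, K j → j ≤ k := by
      classical
      refine ⟨Nat.findGreatest K (M.toCoxeterSystem.length w), ?_, ?_⟩
      · exact Nat.findGreatest_spec (hKb 1 hK1) hK1
      · intro j hj
        exact Nat.le_findGreatest (hKb j hj) hj
    have hk1 : 1 ≤ k := hkmax 1 hK1
    obtain ⟨v, hv⟩ : ∃ v, v = w * (aw M s t k)⁻¹ := ⟨_, rfl⟩
    have hlv : M.toCoxeterSystem.length v + k = M.toCoxeterSystem.length w := by
      rw [hv]; exact hk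
    have hwv : w = v * aw M s t k := by rw [hv]; simp
    -- the other letter
    have hp' : M.toCoxeterSystem.length v <
        M.toCoxeterSystem.length (v * M.simple (if Even k then t else s)) := by
      by_contra hcon
      have h2 := M.toCoxeterSystem.length_mul_simple v (if Even k then t else s)
      rw [cs_simple] at h2
      have h3 : M.toCoxeterSystem.length (v * M.simple (if Even k then t else s)) + 1 =
          M.toCoxeterSystem.length v := by
        rcases h2 with h2 | h2 <;> omega
      have h4 : K (k + 1) := by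
        show M.toCoxeterSystem.length (w * (aw M s t (k + 1))⁻¹) + (k + 1) =
          M.toCoxeterSystem.length w
        have e : w * (aw M s t (k + 1))⁻¹ = v * M.simple (if Even k then t else s) := by
          rw [aw_succ, mul_inv_rev, simple_inv, hv, mul_assoc]
        rw [e]
        omega
      have := hkmax _ h4
      omega
    -- the first letter
    have hp : M.toCoxeterSystem.length v <
        M.toCoxeterSystem.length (v * M.simple (if Even k then s else t)) := by
      by_contra hcon
      have h2 := M.toCoxeterSystem.length_mul_simple v (if Even k then s else t)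
      rw [cs_simple] at h2
      have h3 : M.toCoxeterSystem.length (v * M.simple (if Even k then s else t)) + 1 =
          M.toCoxeterSystem.length v := by
        rcases h2 with h2 | h2 <;> omega
      obtain ⟨j, rfl⟩ : ∃ j, k = j + 1 := ⟨k - 1, by omega⟩
      have e0 : (if Even (j + 1) then s else t) = (if Even j then t else s) := by
        by_cases hj : Even j
        · have : ¬ Even (j + 1) := by rw [Nat.even_add_one]; simpa using hj
          rw [if_neg this, if_pos hj]
        · have : Even (j + 1) := by rw [Nat.even_add_one]; exact hj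
          rw [if_pos this, if_neg hj]
      have e : w = (v * M.simple (if Even (j + 1) then s else t)) * aw M s t j := by
        rw [e0, hwv, aw_succ, ← mul_assoc]
      have h4 := M.toCoxeterSystem.length_mul_le
        (v * M.simple (if Even (j + 1) then s else t)) (aw M s t j)
      rw [← e] at h4
      have h5 := length_aw (M := M) s t j
      omega
    have hvs : M.toCoxeterSystem.length v < M.toCoxeterSystem.length (v * M.simple s) := by
      by_cases hev : Even k
      · rw [if_pos hev] at hp; exact hp
      · rw [if_neg hev] at hp'; exact hp'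
    have hvt : M.toCoxeterSystem.length v < M.toCoxeterSystem.length (v * M.simple t) := by
      by_cases hev : Even k
      · rw [if_pos hev] at hp'; exact hp'
      · rw [if_neg hev] at hp; exact hp
    have hlt : M.toCoxeterSystem.length v < N := by omega
    have hps := ih _ hlt v rfl s hvs
    have hpt := ih _ hlt v rfl t hvt
    have hp1 : ∀ x, 0 ≤ rep M v (bs (if Even k then s else t)) x := by
      intro x
      by_cases hev : Even k
      · rw [if_pos hev]; exact hps x
      · rw [if_neg hev]; exact hpt x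
    have hp2 : ∀ x, 0 ≤ rep M v (bs (if Even k then t else s)) x := by
      intro x
      by_cases hev : Even k
      · rw [if_pos hev]; exact hpt x
      · rw [if_neg hev]; exact hps x
    obtain ⟨c, hc⟩ : ∃ c : ℝ, c = -(2 * cf M s t) := ⟨_, rfl⟩
    suffices hcc : 0 ≤ chb c (k + 1) ∧ 0 ≤ chb c k by
      intro x
      rw [hwv, rep_mul_apply, aw_root s t c hc k, map_add, map_smul, map_smul]
      simp only [Pi.add_apply, Pi.smul_apply, smul_eq_mul]
      have := mul_nonneg hcc.1 (hp1 x)
      have := mul_nonneg hcc.2 (hp2 x)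
      linarith
    by_cases hM0 : M s t = 0
    · have hc4 : c = 4 := by rw [hc, cf_inf M hM0]; norm_num
      have h2 : (2 : ℝ) ≤ c := by rw [hc4]; norm_num
      exact ⟨(chb_mono h2 (k + 1)).1, (chb_mono h2 k).1⟩
    -- `k < m`
    have hkm : k < M s t := by
      by_contra hcon
      push Not at hcon
      obtain ⟨j, hj⟩ : ∃ j, k = M s t + j := ⟨k - M s t, by omega⟩
      obtain ⟨b, hb, hbe⟩ := aw_split (M := M) s t (M s t) j
      obtain ⟨m, hm⟩ : ∃ m, M s t = m + 1 := ⟨M s t - 1, by omega⟩
      have e1 : aw M s t (M s t) = aw M s t m * M.simple s := by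
        rw [aw_braid s t hM0, hm, aw_succ_right]
      have e2 : w * M.simple s = v * (b * aw M s t m) := by
        rw [hwv, hj, hbe, e1]
        simp only [mul_assoc]
        rw [simple_sq, mul_one]
      have h2 := M.toCoxeterSystem.length_mul_le v (b * aw M s t m)
      have h3 := M.toCoxeterSystem.length_mul_le b (aw M s t m)
      have h4 := length_aw (M := M) s t m
      rw [← e2] at h2
      omega
    -- conclusion
    have hm2 : 2 ≤ M s t := by
      have h3 := M.off_diagonal s t hst
      omega
    have hm0 : (0 : ℝ) < M s t := by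
      have : 0 < M s t := by omega
      exact_mod_cast this
    obtain ⟨θ, hθ⟩ : ∃ θ : ℝ, θ = Real.pi / M s t := ⟨_, rfl⟩
    have hθ0 : 0 < θ := by rw [hθ]; positivity
    have hθm : θ * M s t = Real.pi := by rw [hθ]; field_simp
    have hθ1 : θ < Real.pi := by
      have : (2 : ℝ) ≤ M s t := by exact_mod_cast hm2
      nlinarith [Real.pi_pos]
    have hsin : 0 < Real.sin θ := Real.sin_pos_of_pos_of_lt_pi hθ0 hθ1
    have hs1 : 0 ≤ Real.sin ((k + 1 : ℕ) * θ) := by
      refine Real.sin_nonneg_of_nonneg_of_le_pi (by positivity) ?_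
      have : ((k + 1 : ℕ) : ℝ) ≤ M s t := by exact_mod_cast hkm
      nlinarith
    have hs2 : 0 ≤ Real.sin ((k : ℝ) * θ) := by
      refine Real.sin_nonneg_of_nonneg_of_le_pi (by positivity) ?_
      have : (k : ℝ) ≤ M s t := by exact_mod_cast hkm.le
      nlinarith
    have hc' : c = 2 * Real.cos θ := by
      rw [hc, cf_fin M hM0, hθ]; ring
    obtain ⟨q1, q2⟩ := chb_sin θ k
    rw [← hc'] at q1 q2
    constructor
    · by_contra hneg
      push Not at hneg
      have := mul_neg_of_pos_of_neg hsin hneg
      linarith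
    · by_contra hneg
      push Not at hneg
      have := mul_neg_of_pos_of_neg hsin hneg
      linarith

/-- Tits: if `ℓ(w) < ℓ(w s)` then `w α_s` is nonnegative -/
theorem rep_nonneg_of_lt {w : M.Group} {s : S}
    (h : M.toCoxeterSystem.length w < M.toCoxeterSystem.length (w * M.simple s)) (t : S) :
    0 ≤ rep M w (bs s) t := pos_main _ w rfl s h t

/-- Tits: if `ℓ(w s) < ℓ(w)` then `w α_s` is nonpositive -/
theorem rep_nonpos_of_lt {w : M.Group} {s : S}
    (h : M.toCoxeterSystem.length (w * M.simple s) < M.toCoxeterSystem.length w) (t : S) :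
    rep M w (bs s) t ≤ 0 := by
  have e : w * M.simple s * M.simple s = w := by
    rw [mul_assoc, simple_sq, mul_one]
  have h1 := pos_main _ (w * M.simple s) rfl s (by rw [e]; exact h) t
  rw [rep_mul_apply, rep_simple_self, map_neg] at h1
  simp only [Pi.neg_apply] at h1
  linarith

theorem rep_eq_one {w : M.Group} (hw : rep M w = 1) : w = 1 := by
  by_contra hne
  obtain ⟨s, hs⟩ := M.toCoxeterSystem.exists_rightDescent_of_ne_one hne
  have h2 := rep_nonpos_of_lt hs s
  rw [hw] at h2
  change (bs s : S → ℝ) s ≤ 0 at h2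
  rw [bs_self] at h2
  exact absurd h2 (by norm_num)

/-- the representation is faithful -/
theorem rep_injective : Function.Injective (rep M) := by
  intro g h hgh
  have h1 : rep M (g⁻¹ * h) = 1 := by
    refine LinearMap.ext fun v => ?_
    rw [rep_mul_apply, ← hgh, rep_inv_apply_self]
    rfl
  have h2 := rep_eq_one h1
  exact (inv_mul_eq_one.1 h2)

end

end Pool.CS91
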