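import Pool.Agent.Work.MP_64ea0f_cs.InterfaceA
import Pool.Agent.Work.MP_64ea0f_cs_helper91.Root

set_option autoImplicit false

namespace Pool.CS

theorem bform_eq91 {S : Type} [Fintype S] [DecidableEq S] (M : CoxeterMatrix S) (v w : S → ℝ) :
    bform (fun s t => kf (M s t)) v w = Pool.CS91.bf M v w := by
  rw [Pool.CS91.bf_apply]
  rfl

theorem grep_thm : Stmt_GREP := by
  intro S _ _ M
  refine ⟨Pool.CS91.rep M, fun s v => ?_⟩
  rw [Pool.CS91.rep_simple_apply, bform_eq91]
  rfl

end Pool.CS
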