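import Pool.Agent.Work.MP_64ea0f_cs_helper91.Root

set_option autoImplicit false
set_option linter.unusedSectionVars false

/-! # Roots, reflections, inversion sets, half-spaces -/

namespace Pool.CS91

open CoxeterSystem

section

variable {S : Type} [Fintype S] [DecidableEq S]

/-! ## 4. Roots -/

/-- roots -/
def IsRt (M : CoxeterMatrix S) (v : S → ℝ) : Prop := ∃ (w : M.Group) (s : S), v = rep M w (bs s)

/-- positive roots -/
def IsPR (M : CoxeterMatrix S) (v : S → ℝ) : Prop := IsRt M v ∧ ∀ t, 0 ≤ v t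

variable {M : CoxeterMatrix S}

theorem isRt_bs (s : S) : IsRt M (bs s) := ⟨1, s, by simp⟩

theorem isPR_bs (s : S) : IsPR M (bs s) := ⟨isRt_bs s, bs_nonneg s⟩

theorem IsRt.act {v : S → ℝ} (h : IsRt M v) (g : M.Group) : IsRt M (rep M g v) := by
  obtain ⟨w, s, rfl⟩ := h
  exact ⟨g * w, s, by rw [rep_mul_apply]⟩

theorem isRt_act_iff {v : S → ℝ} (g : M.Group) : IsRt M (rep M g v) ↔ IsRt M v := by
  refine ⟨fun h => ?_, fun h => h.act g⟩
  have := h.act g⁻¹
  rwa [rep_inv_apply_self] at this

theorem IsRt.neg {v : S → ℝ} (h : IsRt M v) : IsRt M (-v) := by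
  obtain ⟨w, s, rfl⟩ := h
  exact ⟨w * M.simple s, s, by rw [rep_mul_apply, rep_simple_self, map_neg]⟩

theorem isRt_neg_iff {v : S → ℝ} : IsRt M (-v) ↔ IsRt M v := by
  refine ⟨fun h => ?_, fun h => h.neg⟩
  have := h.neg
  rwa [neg_neg] at this

theorem IsRt.bf_self {v : S → ℝ} (h : IsRt M v) : bf M v v = 1 := by
  obtain ⟨w, s, rfl⟩ := h
  rw [bf_rep, Pool.CS91.bf_self]

theorem IsRt.ne_zero {v : S → ℝ} (h : IsRt M v) : v ≠ 0 := by
  rintro rfl
  have := h.bf_self
  rw [bf_zero_left] at this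
  exact zero_ne_one this

theorem IsRt.pos_or_neg {v : S → ℝ} (h : IsRt M v) : (∀ t, 0 ≤ v t) ∨ (∀ t, v t ≤ 0) := by
  obtain ⟨w, s, rfl⟩ := h
  rcases lt_or_gt_of_ne (M.toCoxeterSystem.length_mul_simple_ne w s) with h4 | h4
  · exact Or.inr (rep_nonpos_of_lt h4)
  · exact Or.inl (rep_nonneg_of_lt h4)

theorem IsRt.isPR_or {v : S → ℝ} (h : IsRt M v) : IsPR M v ∨ IsPR M (-v) := by
  rcases h.pos_or_neg with h1 | h1
  · exact Or.inl ⟨h, h1⟩
  · exact Or.inr ⟨h.neg, fun t => by simpa using h1 t⟩

theorem IsPR.not_neg {v : S → ℝ} (h : IsPR M v) : ¬ IsPR M (-v) := by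
  intro h1
  apply h.1.ne_zero
  funext t
  have h2 := h.2 t
  have h3 := h1.2 t
  simp only [Pi.neg_apply] at h3
  show v t = 0
  linarith

theorem IsRt.not_isPR_iff {v : S → ℝ} (h : IsRt M v) : ¬ IsPR M v ↔ IsPR M (-v) :=
  ⟨fun h1 => h.isPR_or.resolve_left h1, fun h1 h2 => h2.not_neg h1⟩

/-- `v` is a positive root or its negative is; the two are equivalent to the sign -/
theorem IsRt.isPR_iff {v : S → ℝ} (h : IsRt M v) : IsPR M v ↔ ∀ t, 0 ≤ v t :=
  ⟨fun h1 => h1.2, fun h1 => ⟨h, h1⟩⟩

theorem IsRt.isPR_neg_iff {v : S → ℝ} (h : IsRt M v) : IsPR M (-v) ↔ ∀ t, v t ≤ 0 :=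
  ⟨fun h1 t => by simpa using h1.2 t, fun h1 => ⟨h.neg, fun t => by simpa using h1 t⟩⟩

theorem IsPR.sum_pos {v : S → ℝ} (h : IsPR M v) : 0 < ∑ t, v t := by
  rcases (Finset.sum_nonneg (fun t _ => h.2 t)).lt_or_eq with h1 | h1
  · exact h1
  · exfalso
    apply h.1.ne_zero
    funext t
    have := (Finset.sum_eq_zero_iff_of_nonneg (fun t _ => h.2 t)).1 h1.symm t (Finset.mem_univ t)
    simpa using this

/-- a root which is zero outside `s` is `± bs s` -/
theorem IsRt.eq_bs_of {v : S → ℝ} (h : IsRt M v) (s : S) (h0 : ∀ t, t ≠ s → v t = 0) :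
    v = bs s ∨ v = -bs s := by
  have hv' : v = v s • bs s := by
    funext t
    by_cases ht : t = s
    · subst ht; simp [bs]
    · simp [bs, h0 t ht, Pi.single_eq_of_ne ht]
  have h1 := h.bf_self
  rw [hv', bf_smul_left, bf_smul_right, Pool.CS91.bf_self, mul_one] at h1
  have h2 : v s = 1 ∨ v s = -1 := by
    have : (v s - 1) * (v s + 1) = 0 := by linarith
    rcases mul_eq_zero.1 this with h3 | h3
    · left; linarith
    · right; linarith
  rcases h2 with h2 | h2
  · left; rw [hv', h2, one_smul]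
  · right; rw [hv', h2, neg_one_smul]

/-- a positive root other than `bs s` is sent by `s` to a positive root -/
theorem IsPR.simple {v : S → ℝ} (h : IsPR M v) {s : S} (hne : v ≠ bs s) :
    IsPR M (rep M (M.simple s) v) := by
  have hrt := h.1.act (M.simple s)
  refine ⟨hrt, ?_⟩
  rcases hrt.pos_or_neg with h1 | h1
  · exact h1
  · exfalso
    have hz : ∀ t, t ≠ s → v t = 0 := by
      intro t ht
      have h2 := h1 t
      rw [rep_simple_apply] at h2
      have h3 : (v - (2 * bf M v (bs s)) • bs s) t = v t := by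
        simp [bs, Pi.single_eq_of_ne ht]
      rw [h3] at h2
      exact le_antisymm h2 (h.2 t)
    rcases h.1.eq_bs_of s hz with h2 | h2
    · exact hne h2
    · have h3 := h.2 s
      rw [h2] at h3
      simp only [Pi.neg_apply, bs_self] at h3
      norm_num at h3

/-- the inversions of `w`: positive roots made negative -/
def ivs (M : CoxeterMatrix S) (w : M.Group) : Set (S → ℝ) :=
  {v | IsPR M v ∧ IsPR M (-(rep M w v))}

theorem mem_ivs {w : M.Group} {v : S → ℝ} : v ∈ ivs M w ↔ IsPR M v ∧ IsPR M (-(rep M w v)) :=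
  Iff.rfl

theorem ivs_one : ivs M 1 = ∅ := by
  ext v
  simp only [mem_ivs, rep_one_apply, Set.mem_empty_iff_false, iff_false]
  rintro ⟨h1, h2⟩
  exact h1.not_neg h2

theorem ivs_mul_simple_of_lt {w : M.Group} {s : S}
    (h : M.toCoxeterSystem.length w < M.toCoxeterSystem.length (w * M.simple s)) :
    ivs M (w * M.simple s) = insert (bs s) (rep M (M.simple s) '' ivs M w) := by
  have hss : ∀ v, rep M (M.simple s) (rep M (M.simple s) v) = v := by
    intro v
    rw [← rep_mul_apply, simple_sq, rep_one_apply]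
  have hpos : IsPR M (rep M w (bs s)) := ⟨(isRt_bs s).act w, rep_nonneg_of_lt h⟩
  ext v
  simp only [mem_ivs, Set.mem_insert_iff, Set.mem_image]
  constructor
  · rintro ⟨h1, h2⟩
    by_cases hne : v = bs s
    · exact Or.inl hne
    · refine Or.inr ⟨rep M (M.simple s) v, ⟨h1.simple hne, ?_⟩, hss v⟩
      rwa [rep_mul_apply] at h2
  · rintro (rfl | ⟨u, ⟨h1, h2⟩, rfl⟩)
    · refine ⟨isPR_bs s, ?_⟩
      rw [rep_mul_apply, rep_simple_self, map_neg, neg_neg]
      exact hpos
    · have hne : u ≠ bs s := by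
        rintro rfl
        exact hpos.not_neg h2
      refine ⟨h1.simple hne, ?_⟩
      rw [rep_mul_apply, hss]
      exact h2

theorem ivs_finite_ncard (w : M.Group) :
    (ivs M w).Finite ∧ (ivs M w).ncard = M.toCoxeterSystem.length w := by
  obtain ⟨n, hn⟩ : ∃ n, M.toCoxeterSystem.length w = n := ⟨_, rfl⟩
  induction n generalizing w with
  | zero =>
    have h1 : w = 1 := M.toCoxeterSystem.length_eq_zero_iff.1 hn
    subst h1
    rw [ivs_one]
    simp
  | succ n ih =>
    have hne : w ≠ 1 := by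
      rintro rfl
      rw [M.toCoxeterSystem.length_one] at hn
      omega
    obtain ⟨s, hs⟩ := M.toCoxeterSystem.exists_rightDescent_of_ne_one hne
    have hs1 := (M.toCoxeterSystem.isRightDescent_iff).1 hs
    rw [cs_simple] at hs1
    obtain ⟨u, hu⟩ : ∃ u, u = w * M.simple s := ⟨_, rfl⟩
    have hw : w = u * M.simple s := by rw [hu, mul_assoc, simple_sq, mul_one]
    rw [← hu] at hs1
    have hlt : M.toCoxeterSystem.length u < M.toCoxeterSystem.length (u * M.simple s) := by
      rw [← hw]; omega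
    obtain ⟨h1, h2⟩ := ih u (by omega)
    have h3 := ivs_mul_simple_of_lt hlt
    rw [hw, h3]
    have h4 : bs s ∉ rep M (M.simple s) '' ivs M u := by
      rintro ⟨v, ⟨hv, -⟩, h5⟩
      have h6 : v = -bs s := by
        apply rep_inj M (M.simple s)
        rw [h5, map_neg, rep_simple_self, neg_neg]
      rw [h6] at hv
      exact (isPR_bs s).not_neg hv
    refine ⟨(h1.image _).insert _, ?_⟩
    rw [Set.ncard_insert_of_notMem h4 (h1.image _),
      Set.ncard_image_of_injective _ (rep_inj M _), h2, ← hw]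
    omega

theorem ivs_finite (w : M.Group) : (ivs M w).Finite := (ivs_finite_ncard w).1

theorem ivs_ncard (w : M.Group) : (ivs M w).ncard = M.toCoxeterSystem.length w :=
  (ivs_finite_ncard w).2

theorem eq_one_of_pos {w : M.Group} (h : ∀ s, IsPR M (rep M w (bs s))) : w = 1 := by
  by_contra hne
  obtain ⟨s, hs⟩ := M.toCoxeterSystem.exists_rightDescent_of_ne_one hne
  have h2 := rep_nonpos_of_lt hs
  exact (h s).not_neg ((((isRt_bs s).act w).isPR_neg_iff).2 h2)

theorem isPR_rep_bs_iff (w : M.Group) (s : S) : IsPR M (rep M w (bs s)) ↔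
    M.toCoxeterSystem.length w < M.toCoxeterSystem.length (w * M.simple s) := by
  constructor
  · intro h
    rcases lt_or_gt_of_ne (M.toCoxeterSystem.length_mul_simple_ne w s) with h4 | h4
    · exact absurd ((((isRt_bs s).act w).isPR_neg_iff).2 (rep_nonpos_of_lt h4)) h.not_neg
    · exact h4
  · intro h
    exact ⟨(isRt_bs s).act w, rep_nonneg_of_lt h⟩

/-! ## 5. Reflections -/

open Classical in
/-- the reflection in a root -/
noncomputable def rf (M : CoxeterMatrix S) (v : S → ℝ) : M.Group :=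
  if h : IsRt M v then h.choose * M.simple h.choose_spec.choose * h.choose⁻¹ else 1

theorem rep_conj_apply (w : M.Group) (s : S) (x : S → ℝ) :
    rep M (w * M.simple s * w⁻¹) x =
      x - (2 * bf M x (rep M w (bs s))) • rep M w (bs s) := by
  rw [rep_mul_apply, rep_mul_apply, rep_simple_apply, map_sub, map_smul, rep_apply_inv_self,
    bf_rep_inv]

theorem rep_rf {v : S → ℝ} (h : IsRt M v) (x : S → ℝ) :
    rep M (rf M v) x = x - (2 * bf M x v) • v := by
  unfold rf
  rw [dif_pos h, rep_conj_apply, ← h.choose_spec.choose_spec]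

theorem rf_unique {v : S → ℝ} (h : IsRt M v) {r : M.Group}
    (hr : ∀ x, rep M r x = x - (2 * bf M x v) • v) : r = rf M v := by
  apply rep_injective
  refine LinearMap.ext fun x => ?_
  rw [hr, rep_rf h]

theorem rf_bs (s : S) : rf M (bs s) = M.simple s :=
  (rf_unique (isRt_bs s) (rep_simple_apply M s)).symm

theorem rf_act {v : S → ℝ} (h : IsRt M v) (w : M.Group) :
    rf M (rep M w v) = w * rf M v * w⁻¹ := by
  refine (rf_unique (h.act w) fun x => ?_).symm
  rw [rep_mul_apply, rep_mul_apply, rep_rf h, map_sub, map_smul, rep_apply_inv_self, bf_rep_inv]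

theorem rf_rep_bs (w : M.Group) (s : S) : rf M (rep M w (bs s)) = w * M.simple s * w⁻¹ := by
  rw [rf_act (isRt_bs s), rf_bs]

theorem rf_neg {v : S → ℝ} (h : IsRt M v) : rf M (-v) = rf M v := by
  refine (rf_unique h.neg fun x => ?_).symm
  rw [rep_rf h, bf_neg_right]
  module

theorem rep_rf_self {v : S → ℝ} (h : IsRt M v) : rep M (rf M v) v = -v := by
  rw [rep_rf h, h.bf_self]
  module

theorem rf_sq {v : S → ℝ} (h : IsRt M v) : rf M v * rf M v = 1 := by
  obtain ⟨w, s, rfl⟩ := h
  rw [rf_rep_bs]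
  have : w * M.simple s * w⁻¹ * (w * M.simple s * w⁻¹) =
      w * (M.simple s * M.simple s) * w⁻¹ := by group
  rw [this, simple_sq]
  group

theorem rf_inv {v : S → ℝ} (h : IsRt M v) : (rf M v)⁻¹ = rf M v :=
  inv_eq_of_mul_eq_one_left (rf_sq h)

theorem rf_ne_one {v : S → ℝ} (h : IsRt M v) : rf M v ≠ 1 := by
  intro h1
  have h2 := rep_rf_self h
  rw [h1, rep_one_apply] at h2
  apply h.ne_zero
  have h3 : (2 : ℝ) • v = 0 := by
    rw [two_smul]
    nth_rewrite 2 [h2]
    simp
  exact (smul_eq_zero.1 h3).resolve_left two_ne_zero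

theorem rf_eq_iff {v w : S → ℝ} (hv : IsRt M v) (hw : IsRt M w) :
    rf M v = rf M w ↔ v = w ∨ v = -w := by
  constructor
  · intro h
    have h1 := rep_rf_self hv
    rw [h, rep_rf hw] at h1
    -- `2 v = 2 B(v,w) w`
    have h2 : v = (bf M v w) • w := by
      have h3 : (2 : ℝ) • v = (2 : ℝ) • ((bf M v w) • w) := by
        rw [smul_smul]
        have : (2 * bf M v w) • w = v - (v - (2 * bf M v w) • w) := by abel
        rw [this, h1, two_smul]
        abel
      exact smul_right_injective _ two_ne_zero h3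
    have h4 := hv.bf_self
    rw [h2, bf_smul_left, bf_smul_right, hw.bf_self, mul_one] at h4
    have h5 : bf M v w = 1 ∨ bf M v w = -1 := by
      have : (bf M v w - 1) * (bf M v w + 1) = 0 := by linarith
      rcases mul_eq_zero.1 this with h3 | h3
      · left; linarith
      · right; linarith
    rcases h5 with h5 | h5
    · left; rw [h2, h5, one_smul]
    · right; rw [h2, h5, neg_one_smul]
  · rintro (rfl | rfl)
    · rfl
    · exact rf_neg hw

/-- reflections: conjugates of simple reflections -/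
theorem exists_rt_of_conj (w : M.Group) (s : S) : ∃ v, IsRt M v ∧ rf M v = w * M.simple s * w⁻¹ :=
  ⟨rep M w (bs s), (isRt_bs s).act w, rf_rep_bs w s⟩

/-- length of `w r_v` -/
theorem length_mul_rf_lt_iff {w : M.Group} {v : S → ℝ} (hv : IsPR M v) :
    M.toCoxeterSystem.length (w * rf M v) < M.toCoxeterSystem.length w ↔
      IsPR M (-(rep M w v)) := by
  -- it is enough to prove one implication
  have key : ∀ w : M.Group, IsPR M (-(rep M w v)) →
      M.toCoxeterSystem.length (w * rf M v) < M.toCoxeterSystem.length w := by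
    intro w
    obtain ⟨n, hn⟩ : ∃ n, M.toCoxeterSystem.length w = n := ⟨_, rfl⟩
    induction n generalizing w with
    | zero =>
      intro h
      have h1 : w = 1 := M.toCoxeterSystem.length_eq_zero_iff.1 hn
      subst h1
      rw [rep_one_apply] at h
      exact absurd h hv.not_neg
    | succ n ih =>
      intro h
      have hne : w⁻¹ ≠ 1 := by
        intro h1
        rw [inv_eq_one] at h1
        subst h1
        rw [M.toCoxeterSystem.length_one] at hn
        omega
      obtain ⟨s, hs⟩ := M.toCoxeterSystem.exists_rightDescent_of_ne_one hne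
      have hs1 := (M.toCoxeterSystem.isRightDescent_iff).1 hs
      rw [cs_simple, ← M.toCoxeterSystem.length_inv (w⁻¹ * M.simple s),
        M.toCoxeterSystem.length_inv w] at hs1
      have e1 : (w⁻¹ * M.simple s)⁻¹ = M.simple s * w := by
        rw [mul_inv_rev, inv_inv, simple_inv]
      rw [e1] at hs1
      obtain ⟨u, hu⟩ : ∃ u, u = M.simple s * w := ⟨_, rfl⟩
      have hw : w = M.simple s * u := by rw [hu, ← mul_assoc, simple_sq, one_mul]
      rw [← hu] at hs1
      have h2 : rep M w v = rep M (M.simple s) (rep M u v) := by rw [hw, rep_mul_apply]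
      by_cases hu' : IsPR M (-(rep M u v))
      · have h3 := ih u (by omega) hu'
        have h4 := M.toCoxeterSystem.length_mul_le (M.simple s) (u * rf M v)
        have h5 := M.toCoxeterSystem.length_simple s
        rw [cs_simple] at h5
        rw [← mul_assoc, ← hw, h5] at h4
        omega
      · have h3 : IsPR M (rep M u v) := by
          rcases (hv.1.act u).isPR_or with h4 | h4
          · exact h4
          · exact absurd h4 hu'
        have h4 : rep M u v = bs s := by
          by_contra h5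
          have h6 := h3.simple h5
          rw [← h2] at h6
          exact h6.not_neg h
        have h5 : w * rf M v = u := by
          have h6 : v = rep M u⁻¹ (bs s) := by rw [← h4, rep_inv_apply_self]
          rw [h6, rf_rep_bs, hw, inv_inv]
          have : M.simple s * u * (u⁻¹ * M.simple s * u) = (M.simple s * M.simple s) * u := by
            group
          rw [this, simple_sq, one_mul]
        rw [h5]
        omega
  constructor
  · intro h
    by_contra h1
    have h2 : IsPR M (rep M w v) := by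
      rcases (hv.1.act w).isPR_or with h4 | h4
      · exact h4
      · exact absurd h4 h1
    have h3 := key (w * rf M v) (by
      rw [rep_mul_apply, rep_rf_self hv.1, map_neg, neg_neg]
      exact h2)
    rw [mul_assoc, rf_sq hv.1, mul_one] at h3
    omega
  · exact key w

/-! ## 6. Half-spaces -/

/-- the half-space of a root `v`: the chambers `w` with `w⁻¹ v` positive -/
def hs (M : CoxeterMatrix S) (v : S → ℝ) : Set M.Group := {w | IsPR M (rep M w⁻¹ v)}

theorem mem_hs {v : S → ℝ} {w : M.Group} : w ∈ hs M v ↔ IsPR M (rep M w⁻¹ v) := Iff.rfl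

theorem one_mem_hs {v : S → ℝ} : (1 : M.Group) ∈ hs M v ↔ IsPR M v := by
  rw [mem_hs, inv_one, rep_one_apply]

theorem mem_hs_neg {v : S → ℝ} (hv : IsRt M v) {w : M.Group} : w ∈ hs M (-v) ↔ w ∉ hs M v := by
  rw [mem_hs, mem_hs, map_neg, (hv.act w⁻¹).not_isPR_iff]

theorem mem_hs_act {v : S → ℝ} (g w : M.Group) : w ∈ hs M (rep M g v) ↔ g⁻¹ * w ∈ hs M v := by
  rw [mem_hs, mem_hs, ← rep_mul_apply, mul_inv_rev, inv_inv]

theorem mul_mem_hs_act {v : S → ℝ} (g w : M.Group) : g * w ∈ hs M (rep M g v) ↔ w ∈ hs M v := by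
  rw [mem_hs_act, inv_mul_cancel_left]

/-- crossing a wall -/
theorem mem_hs_mul_simple {v : S → ℝ} (hv : IsRt M v) (w : M.Group) (s : S)
    (h1 : v ≠ rep M w (bs s)) (h2 : v ≠ -rep M w (bs s)) :
    w * M.simple s ∈ hs M v ↔ w ∈ hs M v := by
  rw [mem_hs, mem_hs, mul_inv_rev, simple_inv, rep_mul_apply]
  have h3 : rep M w⁻¹ v ≠ bs s := by
    intro h
    apply h1
    rw [← h, rep_apply_inv_self]
  have h4 : -rep M w⁻¹ v ≠ bs s := by
    intro h
    apply h2
    rw [← h, map_neg, rep_apply_inv_self, neg_neg]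
  constructor
  · intro h
    by_contra h5
    rw [(hv.act w⁻¹).not_isPR_iff] at h5
    have h6 := h5.simple h4
    rw [map_neg] at h6
    exact h.not_neg h6
  · intro h
    exact h.simple h3

theorem mem_hs_wall (w : M.Group) (s : S) :
    w ∈ hs M (rep M w (bs s)) ∧ w * M.simple s ∉ hs M (rep M w (bs s)) := by
  constructor
  · rw [mem_hs, rep_inv_apply_self]
    exact isPR_bs s
  · rw [mem_hs, mul_inv_rev, rep_mul_apply, rep_inv_apply_self, simple_inv, rep_simple_self]
    exact fun h => (isPR_bs s).not_neg h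

theorem hs_injective {v w : S → ℝ} (hv : IsRt M v) (hw : IsRt M w) (h : hs M v = hs M w) :
    v = w := by
  obtain ⟨u, s, rfl⟩ := hv
  obtain ⟨h1, h2⟩ := mem_hs_wall u s
  rw [h] at h1 h2
  by_contra h3
  by_cases h4 : w = -rep M u (bs s)
  · rw [h4, mem_hs_neg ((isRt_bs s).act u)] at h1
    exact h1 (mem_hs_wall u s).1
  · exact h2 ((mem_hs_mul_simple hw u s (Ne.symm h3) h4).2 h1)

theorem hs_nonempty {v : S → ℝ} (hv : IsRt M v) : (hs M v).Nonempty := by
  obtain ⟨u, s, rfl⟩ := hv
  exact ⟨u, (mem_hs_wall u s).1⟩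

/-- the walls between two chambers -/
def sep (M : CoxeterMatrix S) (g h : M.Group) : Set (S → ℝ) :=
  {v | IsRt M v ∧ g ∈ hs M v ∧ h ∉ hs M v}

theorem sep_eq (g h : M.Group) : sep M g h = rep M g '' ivs M (h⁻¹ * g) := by
  ext v
  simp only [sep, Set.mem_ofPred_eq, Set.mem_image, mem_ivs, mem_hs]
  constructor
  · rintro ⟨h0, h1, h2⟩
    refine ⟨rep M g⁻¹ v, ⟨h1, ?_⟩, rep_apply_inv_self M g v⟩
    rw [rep_mul_apply, rep_apply_inv_self]
    exact ((h0.act h⁻¹).not_isPR_iff).1 h2
  · rintro ⟨u, ⟨h1, h2⟩, rfl⟩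
    rw [rep_mul_apply] at h2
    rw [rep_inv_apply_self]
    exact ⟨h1.1.act g, h1, fun h3 => h3.not_neg h2⟩

theorem sep_finite (g h : M.Group) : (sep M g h).Finite := by
  rw [sep_eq]
  exact (ivs_finite _).image _

theorem sep_ncard (g h : M.Group) :
    (sep M g h).ncard = M.toCoxeterSystem.length (g⁻¹ * h) := by
  rw [sep_eq, Set.ncard_image_of_injective _ (rep_inj M g), ivs_ncard,
    ← M.toCoxeterSystem.length_inv, mul_inv_rev, inv_inv]

end

end Pool.CS91
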