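import Pool.Agent.Work.MP_64ea0f_cs_helper91.Root2

set_option autoImplicit false
set_option linter.unusedSectionVars false

/-! # Pairs of roots: crossing and nested half-spaces, order of the product of two reflections -/

namespace Pool.CS91

open CoxeterSystem

section

variable {S : Type} [Fintype S] [DecidableEq S] {M : CoxeterMatrix S}

/-! ## 7. Pairs of roots -/

theorem rep_rf_mul_rf_left {v w : S → ℝ} (hv : IsRt M v) (hw : IsRt M w) {c : ℝ}
    (hc : c = -(2 * bf M v w)) :
    rep M (rf M v * rf M w) v = (c ^ 2 - 1) • v + c • w := by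
  rw [rep_mul_apply, rep_rf hw, map_sub, map_smul, rep_rf hv v, rep_rf hv w, hv.bf_self,
    bf_symm M w v, hc]
  module

theorem rep_rf_mul_rf_right {v w : S → ℝ} (hv : IsRt M v) (hw : IsRt M w) {c : ℝ}
    (hc : c = -(2 * bf M v w)) :
    rep M (rf M v * rf M w) w = (-c) • v - w := by
  rw [rep_mul_apply, rep_rf hw, hw.bf_self, map_sub, map_smul, rep_rf hv w, bf_symm M w v, hc]
  module

/-- powers of the product of two reflections -/
theorem rep_rf_mul_rf_pow {v w : S → ℝ} (hv : IsRt M v) (hw : IsRt M w) {c : ℝ}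
    (hc : c = -(2 * bf M v w)) (j : ℕ) :
    rep M ((rf M v * rf M w) ^ j) v = chb c (2 * j + 1) • v + chb c (2 * j) • w := by
  induction j with
  | zero => simp [chb]
  | succ j ih =>
    rw [pow_succ', rep_mul_apply, ih, map_add, map_smul, map_smul, rep_rf_mul_rf_left hv hw hc,
      rep_rf_mul_rf_right hv hw hc]
    have e1 : chb c (2 * (j + 1) + 1) = c * chb c (2 * (j + 1)) - chb c (2 * j + 1) := rfl
    have e2 : chb c (2 * (j + 1)) = c * chb c (2 * j + 1) - chb c (2 * j) := rfl
    rw [e1, e2]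
    module

/-- two positive roots with `bf v w ≤ -1` are not simultaneously made negative -/
theorem not_both_neg {v w : S → ℝ} (hv : IsPR M v) (hw : IsPR M w) (h : bf M v w ≤ -1)
    (g : M.Group) : ¬ (IsPR M (-(rep M g v)) ∧ IsPR M (-(rep M g w))) := by
  rintro ⟨h1, h2⟩
  obtain ⟨c, hc⟩ : ∃ c : ℝ, c = -(2 * bf M v w) := ⟨_, rfl⟩
  have hc2 : 2 ≤ c := by rw [hc]; linarith
  have hmono : StrictMono (chb c) := by
    refine strictMono_nat_of_lt_succ fun n => ?_
    have := (chb_mono hc2 n).2
    linarith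
  have h3 : ∀ j : ℕ, rep M ((rf M v * rf M w) ^ j) v ∈ ivs M g := by
    intro j
    have e := rep_rf_mul_rf_pow hv.1 hw.1 hc j
    have p1 := (chb_mono hc2 (2 * j + 1)).1
    have p2 := (chb_mono hc2 (2 * j)).1
    refine ⟨⟨hv.1.act _, fun t => ?_⟩, ?_⟩
    · rw [e]
      simp only [Pi.add_apply, Pi.smul_apply, smul_eq_mul]
      have := mul_nonneg p1 (hv.2 t)
      have := mul_nonneg p2 (hw.2 t)
      linarith
    · refine ⟨((hv.1.act _).act g).neg, fun t => ?_⟩
      rw [e, map_add, map_smul, map_smul]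
      simp only [Pi.neg_apply, Pi.add_apply, Pi.smul_apply, smul_eq_mul]
      have := h1.2 t
      have := h2.2 t
      simp only [Pi.neg_apply] at *
      have := mul_nonneg p1 (h1.2 t)
      have := mul_nonneg p2 (h2.2 t)
      simp only [Pi.neg_apply] at *
      linarith
  have hinj : Function.Injective (fun j : ℕ => rep M ((rf M v * rf M w) ^ j) v) := by
    have hs : StrictMono (fun j : ℕ => ∑ t, rep M ((rf M v * rf M w) ^ j) v t) := by
      have e : (fun j : ℕ => ∑ t, rep M ((rf M v * rf M w) ^ j) v t) =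
          fun j : ℕ => chb c (2 * j + 1) * (∑ t, v t) + chb c (2 * j) * ∑ t, w t := by
        funext j
        rw [rep_rf_mul_rf_pow hv.1 hw.1 hc j]
        simp only [Pi.add_apply, Pi.smul_apply, smul_eq_mul, Finset.sum_add_distrib,
          Finset.mul_sum]
      rw [e]
      intro i j hij
      have a1 := hmono (show 2 * i + 1 < 2 * j + 1 by omega)
      have a2 := hmono (show 2 * i < 2 * j by omega)
      have b1 := hv.sum_pos
      have b2 := hw.sum_pos
      show chb c (2 * i + 1) * (∑ t, v t) + chb c (2 * i) * ∑ t, w t <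
        chb c (2 * j + 1) * (∑ t, v t) + chb c (2 * j) * ∑ t, w t
      have := mul_lt_mul_of_pos_right a1 b1
      have := mul_lt_mul_of_pos_right a2 b2
      linarith
    intro i j hij
    apply hs.injective
    show ∑ t, rep M ((rf M v * rf M w) ^ i) v t = ∑ t, rep M ((rf M v * rf M w) ^ j) v t
    have hij' : rep M ((rf M v * rf M w) ^ i) v = rep M ((rf M v * rf M w) ^ j) v := hij
    rw [hij']
  exact (Set.infinite_of_injective_forall_mem hinj h3) (ivs_finite g)

/-- `bf v w ≤ -1`: the half-spaces or the opposite half-spaces are disjoint -/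
theorem nest {v w : S → ℝ} (hv : IsRt M v) (hw : IsRt M w) (h : bf M v w ≤ -1) :
    Disjoint (hs M v) (hs M w) ∨ Disjoint (hs M (-v)) (hs M (-w)) := by
  by_contra hcon
  push Not at hcon
  obtain ⟨h1, h2⟩ := hcon
  rw [Set.not_disjoint_iff] at h1 h2
  obtain ⟨a, ha1, ha2⟩ := h1
  obtain ⟨b, hb1, hb2⟩ := h2
  rw [mem_hs] at ha1 ha2 hb1 hb2
  refine not_both_neg ha1 ha2 (by rw [bf_rep]; exact h) (b⁻¹ * a) ⟨?_, ?_⟩
  · rw [rep_mul_apply, rep_apply_inv_self]
    rwa [map_neg] at hb1
  · rw [rep_mul_apply, rep_apply_inv_self]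
    rwa [map_neg] at hb2

theorem compl_hs {v : S → ℝ} (hv : IsRt M v) : (hs M v)ᶜ = hs M (-v) := by
  ext w
  rw [Set.mem_compl_iff, mem_hs_neg hv]

theorem disjoint_hs_neg_iff {v w : S → ℝ} (hw : IsRt M w) :
    Disjoint (hs M v) (hs M (-w)) ↔ hs M v ⊆ hs M w := by
  rw [← compl_hs hw, Set.disjoint_compl_right_iff_subset]

/-- `1 ≤ bf v w`: the half-spaces are nested -/
theorem nest' {v w : S → ℝ} (hv : IsRt M v) (hw : IsRt M w) (h : 1 ≤ bf M v w) :
    hs M v ⊆ hs M w ∨ hs M w ⊆ hs M v := by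
  rcases nest hv hw.neg (by rw [bf_neg_right]; linarith) with h1 | h1
  · exact Or.inl ((disjoint_hs_neg_iff hw).1 h1)
  · rw [neg_neg] at h1
    exact Or.inr ((disjoint_hs_neg_iff hv).1 h1.symm)

/-- infinite order -/
theorem rf_mul_rf_pow_ne_one {v w : S → ℝ} (hv : IsRt M v) (hw : IsRt M w)
    (h : 1 ≤ |bf M v w|) (h1 : v ≠ w) (h2 : v ≠ -w) (k : ℕ) (hk : 0 < k) :
    (rf M v * rf M w) ^ k ≠ 1 := by
  have key : ∀ w : S → ℝ, IsRt M w → bf M v w ≤ -1 → v ≠ -w → (rf M v * rf M w) ^ k ≠ 1 := by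
    intro w hw h h2 hone
    obtain ⟨c, hc⟩ : ∃ c : ℝ, c = -(2 * bf M v w) := ⟨_, rfl⟩
    have hc2 : 2 ≤ c := by rw [hc]; linarith
    have e := rep_rf_mul_rf_pow hv hw hc k
    rw [hone, rep_one_apply] at e
    have hmono : StrictMono (chb c) := by
      refine strictMono_nat_of_lt_succ fun n => ?_
      have := (chb_mono hc2 n).2
      linarith
    have p1 : 0 < chb c (2 * k) := by
      have := hmono (show 0 < 2 * k by omega)
      simpa [chb] using this
    have p2 : 1 < chb c (2 * k + 1) := by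
      have := hmono (show 1 < 2 * k + 1 by omega)
      simpa [chb] using this
    obtain ⟨l, hl⟩ : ∃ l : ℝ, l = (chb c (2 * k + 1) - 1) / chb c (2 * k) := ⟨_, rfl⟩
    have hlpos : 0 < l := by
      rw [hl]
      exact div_pos (by linarith) p1
    have hwl : w = (-l) • v := by
      have h3 : chb c (2 * k) • w = chb c (2 * k) • ((-l) • v) := by
        rw [smul_smul]
        have h4 : chb c (2 * k) * -l = -(chb c (2 * k + 1) - 1) := by
          rw [hl]; field_simp
        rw [h4]
        have h5 : chb c (2 * k) • w = v - chb c (2 * k + 1) • v := by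
          nth_rewrite 1 [e]
          abel
        rw [h5]
        module
      exact smul_right_injective _ p1.ne' h3
    have h6 := hw.bf_self
    rw [hwl, bf_smul_left, bf_smul_right, hv.bf_self] at h6
    have h7 : l = 1 := by nlinarith
    apply h2
    rw [hwl, h7]
    module
  rcases le_abs'.1 h with h3 | h3
  · exact key w hw h3 h2
  · have := key (-w) hw.neg (by rw [bf_neg_right]; linarith) (by rw [neg_neg]; exact h1)
    rwa [rf_neg hw] at this

/-- a positive sequence cannot satisfy `c (j+2) = τ c (j+1) - c j` with `τ < 2` -/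
theorem no_pos (τ : ℝ) (hτ : τ < 2) (c : ℕ → ℝ) (hc : ∀ j, 0 < c j)
    (hr : ∀ j, c (j + 2) = τ * c (j + 1) - c j) : False := by
  have key : ∀ j : ℕ, c (j + 1) / c j ≤ c 1 / c 0 - (j : ℝ) * (2 - τ) := by
    intro j
    induction j with
    | zero => simp
    | succ j ih =>
      have h0 := hc j
      have h1 := hc (j + 1)
      have h2 := hr j
      have h3 : c (j + 1 + 1) / c (j + 1) ≤ c (j + 1) / c j - (2 - τ) := by
        rw [show j + 1 + 1 = j + 2 from rfl, h2, div_le_iff₀ h1]
        have h4 : (c (j + 1) / c j - (2 - τ)) * c (j + 1) - (τ * c (j + 1) - c j) =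
            (c (j + 1) - c j) ^ 2 / c j := by
          field_simp
          ring
        have h5 : 0 ≤ (c (j + 1) - c j) ^ 2 / c j := by positivity
        linarith
      push_cast
      linarith
  obtain ⟨n, hn⟩ := exists_nat_gt ((c 1 / c 0) / (2 - τ))
  have hp : 0 < 2 - τ := by linarith
  rw [div_lt_iff₀ hp] at hn
  have h1 := key n
  have h2 : 0 < c (n + 1) / c n := div_pos (hc _) (hc _)
  linarith

/-- if the orbit returns then the product has finite order -/
theorem fin_of_return {v w : S → ℝ} (hv : IsRt M v) (hw : IsRt M w) (hb : |bf M v w| < 1)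
    (hb0 : bf M v w ≠ 0) (k : ℕ) (hk : rep M ((rf M v * rf M w) ^ k) v = v) :
    (rf M v * rf M w) ^ k = 1 := by
  have e1 := hv.bf_self
  have e2 := hw.bf_self
  obtain ⟨b, hbd⟩ : ∃ b : ℝ, b = bf M v w := ⟨_, rfl⟩
  have a1 := rep_rf_mul_rf_left hv hw (c := -(2 * b)) (by rw [hbd])
  rw [← hbd] at hb hb0
  have hs := bf_symm M w v
  rw [← hbd] at hs
  have hb' : b ^ 2 < 1 := by
    rw [← sq_abs]
    have := abs_nonneg b
    nlinarith
  apply rep_eq_one
  obtain ⟨T, hT⟩ : ∃ T, T = rep M ((rf M v * rf M w) ^ k) := ⟨_, rfl⟩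
  rw [← hT] at hk ⊢
  have hcomm : ∀ x, T (rep M (rf M v * rf M w) x) = rep M (rf M v * rf M w) (T x) := by
    intro x
    rw [hT, ← rep_mul_apply, ← rep_mul_apply, ← pow_succ, ← pow_succ']
  have hk2 : T w = w := by
    have h5 := hcomm v
    rw [hk, a1, map_add, map_smul, map_smul, hk] at h5
    have h6 : (-(2 * b)) • T w = (-(2 * b)) • w := add_left_cancel h5
    have h7 : -(2 * b) ≠ 0 := by
      intro h
      apply hb0
      linarith
    exact smul_right_injective _ h7 h6
  -- vectors orthogonal to `v, w` are fixed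
  have horth : ∀ x, bf M x v = 0 → bf M x w = 0 → T x = x := by
    intro x hx1 hx2
    have h5 : rep M (rf M v * rf M w) x = x := by
      rw [rep_mul_apply, rep_rf hw, hx2, mul_zero, zero_smul, sub_zero, rep_rf hv, hx1, mul_zero,
        zero_smul, sub_zero]
    have h6 : ∀ j : ℕ, rep M ((rf M v * rf M w) ^ j) x = x := by
      intro j
      induction j with
      | zero => simp
      | succ j ih => rw [pow_succ, rep_mul_apply, h5, ih]
    rw [hT]
    exact h6 k
  apply LinearMap.ext
  intro x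
  have hd : 1 - b ^ 2 ≠ 0 := by linarith
  obtain ⟨p, q, hp, hq⟩ : ∃ p q : ℝ, bf M x v = p + b * q ∧ bf M x w = b * p + q := by
    refine ⟨(bf M x v - b * bf M x w) / (1 - b ^ 2), (bf M x w - b * bf M x v) / (1 - b ^ 2),
      ?_, ?_⟩
    · field_simp
      ring
    · field_simp
      ring
  have hz1 : bf M (x - (p • v + q • w)) v = 0 := by
    rw [bf_sub_left, bf_add_left, bf_smul_left, bf_smul_left, e1, hs, hp]
    ring
  have hz2 : bf M (x - (p • v + q • w)) w = 0 := by
    rw [bf_sub_left, bf_add_left, bf_smul_left, bf_smul_left, e2, ← hbd, hq]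
    ring
  have h10 := horth _ hz1 hz2
  rw [map_sub, map_add, map_smul, map_smul, hk, hk2] at h10
  have h11 : T x = x := sub_left_injective h10
  rw [h11]
  rfl

/-- `|bf v w| < 1`: the product of the reflections has finite order -/
theorem rf_mul_rf_finite_order {v w : S → ℝ} (hv : IsRt M v) (hw : IsRt M w)
    (hb : |bf M v w| < 1) : ∃ k : ℕ, 0 < k ∧ (rf M v * rf M w) ^ k = 1 := by
  by_cases hb0 : bf M v w = 0
  · -- orthogonal roots: the product is an involution
    refine ⟨2, by norm_num, ?_⟩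
    apply rep_eq_one
    apply LinearMap.ext
    intro x
    have h5 : ∀ z, rep M (rf M v * rf M w) z = z - (2 * bf M z w) • w - (2 * bf M z v) • v := by
      intro z
      rw [rep_mul_apply, rep_rf hw, map_sub, map_smul, rep_rf hv z, rep_rf hv w, bf_symm M w v,
        hb0]
      module
    have h6 : rep M (rf M v * rf M w) v = -v := by
      rw [h5, hv.bf_self, hb0]
      module
    have h7 : rep M (rf M v * rf M w) w = -w := by
      rw [h5, hw.bf_self, bf_symm M w v, hb0]
      module
    rw [pow_two, rep_mul_apply, h5 x, map_sub, map_sub, map_smul, map_smul, h5 x, h6, h7]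
    simp only [Module.End.one_apply]
    module
  · by_contra hno
    push Not at hno
    obtain ⟨R, hR⟩ : ∃ R, R = rf M v * rf M w := ⟨_, rfl⟩
    obtain ⟨xs, hxs⟩ : ∃ xs : ℕ → (S → ℝ), ∀ j, xs j = rep M (R ^ j) v :=
      ⟨fun j => rep M (R ^ j) v, fun _ => rfl⟩
    have hne : ∀ k : ℕ, 0 < k → xs k ≠ v := fun k hk h =>
      hno k hk (fin_of_return hv hw hb hb0 k (by rw [← hR, ← hxs]; exact h))
    have hinj : Function.Injective xs := by
      have key : ∀ i j : ℕ, i < j → xs i ≠ xs j := by
        intro i j hij h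
        obtain ⟨d, rfl⟩ := Nat.exists_eq_add_of_lt hij
        apply hne (d + 1) (by omega)
        apply rep_inj M (R ^ i)
        rw [hxs (d + 1), ← rep_mul_apply, ← pow_add, ← add_assoc, ← hxs, ← h, hxs]
      intro i j h
      rcases lt_trichotomy i j with h5 | h5 | h5
      · exact absurd h (key i j h5)
      · exact h5
      · exact absurd h.symm (key j i h5)
    have hroot : ∀ j, IsRt M (xs j) := fun j => by rw [hxs]; exact hv.act _
    have hsucc : ∀ j, xs (j + 1) = rep M R (xs j) := by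
      intro j
      rw [hxs, hxs, ← rep_mul_apply, pow_succ']
    have hF := ivs_finite (M := M) R
    have hfin1 : {j : ℕ | xs j ∈ ivs M R}.Finite := hF.preimage (hinj.injOn)
    have hfin2 : {j : ℕ | -xs j ∈ ivs M R}.Finite := by
      apply hF.preimage
      intro i _ j _ h
      exact hinj (neg_injective h)
    obtain ⟨j₀, hj₀⟩ : ∃ j₀ : ℕ, ∀ j, j₀ ≤ j → xs j ∉ ivs M R ∧ -xs j ∉ ivs M R := by
      obtain ⟨B, hB⟩ := (hfin1.union hfin2).bddAbove
      refine ⟨B + 1, fun j hj => ⟨fun h => ?_, fun h => ?_⟩⟩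
      · have := hB (Or.inl h)
        omega
      · have := hB (Or.inr h)
        omega
    have hb' : bf M v w ^ 2 < 1 := by
      rw [← sq_abs]
      have := abs_nonneg (bf M v w)
      nlinarith
    have hrec0 : ∀ j, xs (j + 2) = (4 * bf M v w ^ 2 - 2) • xs (j + 1) - xs j := by
      obtain ⟨c, hc⟩ : ∃ c : ℝ, c = -(2 * bf M v w) := ⟨_, rfl⟩
      intro j
      have e1 : chb c (2 * (j + 2) + 1) = c * chb c (2 * (j + 2)) - chb c (2 * (j + 1) + 1) := rfl
      have e2 : chb c (2 * (j + 2)) = c * chb c (2 * (j + 1) + 1) - chb c (2 * (j + 1)) := rfl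
      have e3 : chb c (2 * (j + 1) + 1) = c * chb c (2 * (j + 1)) - chb c (2 * j + 1) := rfl
      have e4 : chb c (2 * (j + 1)) = c * chb c (2 * j + 1) - chb c (2 * j) := rfl
      have e5 : 4 * bf M v w ^ 2 - 2 = c ^ 2 - 2 := by rw [hc]; ring
      rw [hxs, hxs, hxs, hR, rep_rf_mul_rf_pow hv hw hc, rep_rf_mul_rf_pow hv hw hc,
        rep_rf_mul_rf_pow hv hw hc, e5, e1, e2, e3, e4]
      module
    have hrec : ∀ j, ∑ t, xs (j + 2) t =
        (4 * bf M v w ^ 2 - 2) * ∑ t, xs (j + 1) t - ∑ t, xs j t := by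
      intro j
      rw [hrec0 j]
      simp only [Pi.sub_apply, Pi.smul_apply, smul_eq_mul, Finset.sum_sub_distrib,
        ← Finset.mul_sum]
    rcases (hroot j₀).isPR_or with hp | hp
    · have hall : ∀ j, IsPR M (xs (j₀ + j)) := by
        intro j
        induction j with
        | zero => exact hp
        | succ j ih =>
          rcases (hroot (j₀ + (j + 1))).isPR_or with h5 | h5
          · exact h5
          · exfalso
            refine (hj₀ (j₀ + j) (by omega)).1 ⟨ih, ?_⟩
            rw [← hsucc]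
            exact h5
      refine no_pos (4 * bf M v w ^ 2 - 2) (by linarith)
        (fun j => ∑ t, xs (j₀ + j) t) (fun j => (hall j).sum_pos) (fun j => hrec (j₀ + j))
    · have hall : ∀ j, IsPR M (-xs (j₀ + j)) := by
        intro j
        induction j with
        | zero => exact hp
        | succ j ih =>
          rcases (hroot (j₀ + (j + 1))).isPR_or with h5 | h5
          · exfalso
            refine (hj₀ (j₀ + j) (by omega)).2 ⟨ih, ?_⟩
            rw [map_neg, neg_neg, ← hsucc]
            exact h5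
          · exact h5
      refine no_pos (4 * bf M v w ^ 2 - 2) (by linarith)
        (fun j => -∑ t, xs (j₀ + j) t) (fun j => ?_) (fun j => ?_)
      · have h5 := (hall j).sum_pos
        simpa [Finset.sum_neg_distrib] using h5
      · show -∑ t, xs (j₀ + (j + 2)) t =
          (4 * bf M v w ^ 2 - 2) * -∑ t, xs (j₀ + (j + 1)) t - -∑ t, xs (j₀ + j) t
        rw [show j₀ + (j + 2) = j₀ + j + 2 by ring, show j₀ + (j + 1) = j₀ + j + 1 by ring,
          hrec (j₀ + j)]
        ring

theorem hs_act_subset {v w : S → ℝ} (g : M.Group) (h : hs M v ⊆ hs M w) :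
    hs M (rep M g v) ⊆ hs M (rep M g w) := by
  intro x hx
  rw [mem_hs_act] at hx ⊢
  exact h hx

/-- `|bf v w| < 1`: the half-spaces meet -/
theorem cross {v w : S → ℝ} (hv : IsRt M v) (hw : IsRt M w) (hb : |bf M v w| < 1) :
    ¬ Disjoint (hs M v) (hs M w) := by
  intro hd
  obtain ⟨k, hk, hR⟩ := rf_mul_rf_finite_order hv hw hb
  have h1 : hs M v ⊆ hs M (-w) := by
    rw [← disjoint_hs_neg_iff hw.neg, neg_neg]; exact hd
  have h2 : hs M w ⊆ hs M (-v) := by
    rw [← disjoint_hs_neg_iff hv.neg, neg_neg]; exact hd.symm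
  have h3 : hs M (rep M (rf M w) v) ⊆ hs M w := by
    have := hs_act_subset (rf M w) h1
    rwa [map_neg, rep_rf_self hw, neg_neg] at this
  have h4 : hs M (rep M (rf M v * rf M w) v) ⊆ hs M v := by
    have := hs_act_subset (rf M v) (h3.trans h2)
    rwa [map_neg, rep_rf_self hv, neg_neg, ← rep_mul_apply] at this
  have h5 : ∀ j : ℕ, hs M (rep M ((rf M v * rf M w) ^ (j + 1)) v) ⊆
      hs M (rep M (rf M v * rf M w) v) := by
    intro j
    induction j with
    | zero => rw [zero_add, pow_one]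
    | succ j ih =>
      refine subset_trans ?_ ih
      rw [pow_succ, rep_mul_apply]
      exact hs_act_subset _ h4
  obtain ⟨n, rfl⟩ : ∃ n, k = n + 1 := ⟨k - 1, by omega⟩
  have h6 := h5 n
  rw [hR, rep_one_apply] at h6
  have h7 : hs M v = hs M (rep M (rf M v * rf M w) v) := h6.antisymm h4
  have h8 : hs M (-v) ⊆ hs M w := by
    have := hs_act_subset (rf M v) h6
    rw [rep_rf_self hv, ← rep_mul_apply, ← mul_assoc, rf_sq hv, one_mul] at this
    exact this.trans h3
  have h9 := hs_injective hw hv.neg (h2.antisymm h8)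
  rw [h9, bf_neg_right, hv.bf_self] at hb
  norm_num at hb

/-- disjoint half-spaces have `bf v w ≤ -1` -/
theorem bf_le_of_disjoint {v w : S → ℝ} (hv : IsRt M v) (hw : IsRt M w)
    (h : Disjoint (hs M v) (hs M w)) : bf M v w ≤ -1 := by
  by_contra hcon
  push Not at hcon
  rcases lt_or_ge (bf M v w) 1 with h1 | h1
  · exact cross hv hw (abs_lt.2 ⟨hcon, h1⟩) h
  · rcases nest' hv hw h1 with h2 | h2
    · obtain ⟨x, hx⟩ := hs_nonempty hv
      exact Set.disjoint_left.1 h hx (h2 hx)
    · obtain ⟨x, hx⟩ := hs_nonempty hw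
      exact Set.disjoint_left.1 h (h2 hx) hx

/-- nested half-spaces have `1 ≤ bf v w` -/
theorem one_le_bf_of_subset {v w : S → ℝ} (hv : IsRt M v) (hw : IsRt M w)
    (h : hs M v ⊆ hs M w) : 1 ≤ bf M v w := by
  have := bf_le_of_disjoint hv hw.neg ((disjoint_hs_neg_iff hw).2 h)
  rw [bf_neg_right] at this
  linarith

theorem one_le_bf_iff {v w : S → ℝ} (hv : IsRt M v) (hw : IsRt M w) :
    1 ≤ bf M v w ↔ (hs M v ⊆ hs M w ∨ hs M w ⊆ hs M v) := by
  refine ⟨nest' hv hw, ?_⟩
  rintro (h | h)
  · exact one_le_bf_of_subset hv hw h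
  · rw [bf_symm]; exact one_le_bf_of_subset hw hv h

theorem abs_bf_lt_one_iff {v w : S → ℝ} (hv : IsRt M v) (hw : IsRt M w) :
    |bf M v w| < 1 ↔ (¬ Disjoint (hs M v) (hs M w) ∧ ¬ Disjoint (hs M v) (hs M (-w)) ∧
      ¬ Disjoint (hs M (-v)) (hs M w) ∧ ¬ Disjoint (hs M (-v)) (hs M (-w))) := by
  constructor
  · intro h
    refine ⟨cross hv hw h, cross hv hw.neg ?_, cross hv.neg hw ?_, cross hv.neg hw.neg ?_⟩
    · rwa [bf_neg_right, abs_neg]
    · rwa [bf_neg_left, abs_neg]
    · rwa [bf_neg_right, bf_neg_left, neg_neg]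
  · rintro ⟨h1, h2, h3, h4⟩
    by_contra h
    push Not at h
    rcases le_abs'.1 h with h5 | h5
    · rcases nest hv hw h5 with h6 | h6
      · exact h1 h6
      · exact h4 h6
    · rcases nest' hv hw h5 with h6 | h6
      · exact h2 ((disjoint_hs_neg_iff hw).2 h6)
      · exact h3 ((disjoint_hs_neg_iff hv).2 h6).symm

end

end Pool.CS91
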